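import Mathlib

set_option autoImplicit false

/-!
# Project PW: the powers of two perturbed at random

Rows MP_f6c7cf_nt and MP_1e1427_nt. `a k` are independent random integers, uniformly distributed on
`[2 ^ k, 2 ^ k + H k)`, where `2 ^ (δ k) ≤ H k ≤ 2 ^ k`. Almost surely every large odd `n` is
`x² + y² + z² + 4w²` with `a x + a y + a z + 1` prime. This file needs only Mathlib.
-/

namespace Pool.Agent.D0H86.PW

open Finset Filter MeasureTheory ProbabilityTheory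

/-- independent random integers, `a k` uniformly distributed on `[2 ^ k, 2 ^ k + H k)` -/
structure Model {Ω : Type} [MeasurableSpace Ω] (μ : Measure Ω) (a : ℕ → Ω → ℕ) (H : ℕ → ℕ) : Prop where
  meas : ∀ k, Measurable (a k)
  indep : iIndepFun a μ
  unif : ∀ k j, μ.real {ω | a k ω = j} = if 2 ^ k ≤ j ∧ j < 2 ^ k + H k then ((H k : ℝ))⁻¹ else 0

/-- a value of the random sequence -/
def Val (H : ℕ → ℕ) (b : ℕ → ℕ) : Prop := ∀ k, 2 ^ k ≤ b k ∧ b k < 2 ^ k + H k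

open Classical in
/-- the `T ∈ [2 ^ u, 2 ^ u + H)` for which `T + s` is prime for some `s ∈ S` -/
noncomputable def hit (u H : ℕ) (S : Finset ℕ) : Finset ℕ :=
  (Ico (2 ^ u) (2 ^ u + H)).filter (fun T => ∃ s ∈ S, (T + s).Prime)

/-- **Module N1** (25 min). Primes in short intervals.

Proof: library theorem `Pool.Agent.H295R3.D.hoheisel : Pool.Agent.H469R10.HO.Hoheisel` (file
`Pool/Agent/H295R3/Hoheisel.lean`): for `X ≥ X₀`, `X ^ (1 - δ₀) ≤ Y ≤ X` there are at least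
`η₀ Y / log X` primes in `(X, X + Y]`. Take `δ = 1 - δ₀ / 2`, `X = 2 ^ u + s ≤ 3 * 2 ^ u`, `Y = H - 1`;
`(3 * 2 ^ u) ^ (1 - δ₀) + 1 ≤ 2 ^ (δ u)` for large `u`, `log X ≤ 2 u`, `Y ≥ H / 2`. -/
def S_N1 : Prop := ∃ δ η : ℝ, 0 < δ ∧ δ < 1 ∧ 0 < η ∧ ∃ u₀ : ℕ, ∀ u H s : ℕ, u₀ ≤ u →
  (2 : ℝ) ^ (δ * u) ≤ H → H ≤ 2 ^ u → s ≤ 2 ^ (u + 1) →
  η * H / u ≤ (hit u H {s}).card

/-- **Module N2** (35 min). Prime pairs in short intervals, upper bound.

Proof: library theorem `Pool.Agent.Y949.DK.t_SV : Pool.Agent.Y851.DK.P_SV` with `r = 2`, `Y = H`,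
`F = {(1, 2 ^ u - 1 + s), (1, 2 ^ u - 1 + s')}` (`n ∈ [1, H]` is `T = 2 ^ u - 1 + n`; example of use:
`pair_le` in `Pool/Agent/R105/GD/Pairs.lean`). The bound is
`C exp (C (2 sg 1 + 2 sg |s - s'| + ...)) H / (log H) ^ 2` with `log H ≥ δ u log 2`, and
`sg d = ∑_{p ∣ d} 1/p ≤ ∑_{p ≤ u} 1/p + (number of prime factors of d) / u ≤ log log u + C` for
`0 < d ≤ 2 ^ (u + 1)` (Mertens upper bound; the library has several, for instance
`Pool.Agent.Y949.DK.mertens_ratio`, or grep for mertens). So the factor is a power of `log u`. -/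
def S_N2 : Prop := ∀ δ : ℝ, 0 < δ → ∃ C u₀ : ℕ, ∀ u H s s' : ℕ, u₀ ≤ u →
  (2 : ℝ) ^ (δ * u) ≤ H → H ≤ 2 ^ u → s ≤ 2 ^ (u + 1) → s' ≤ 2 ^ (u + 1) → s ≠ s' →
  (((hit u H {s}) ∩ (hit u H {s'})).card : ℝ) ≤ C * Real.log u ^ C * H / (u : ℝ) ^ 2

/-- **Module N3** (25 min). Many shifts.

Proof: `δ`, `η` from N1. `N T = #{s ∈ S : T + s prime}`, `A = ∑_T N T ≥ k η H / u`, `k = |S|`,
`∑_T (N T) ^ 2 ≤ A + k ^ 2 C (log u) ^ C H / u ^ 2` (N2), Cauchy-Schwarz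
`A ^ 2 ≤ |hit| ∑ (N T) ^ 2`; `t ^ 2 / (t + B)` is increasing in `t`, so
`|hit| ≥ H (k η / u) ^ 2 / (k η / u + k ^ 2 C (log u) ^ C / u ^ 2)
 = H η ^ 2 / (η u / k + C (log u) ^ C) ≥ H u ^ (-2 ε)` for large `u`, as `u / k ≤ u ^ ε`. -/
def S_N3 : Prop := ∃ δ : ℝ, 0 < δ ∧ δ < 1 ∧ ∀ ε : ℝ, 0 < ε → ∃ u₀ : ℕ, ∀ u H : ℕ, u₀ ≤ u →
  (2 : ℝ) ^ (δ * u) ≤ H → H ≤ 2 ^ u → ∀ S : Finset ℕ, (∀ s ∈ S, s ≤ 2 ^ (u + 1)) →
  (u : ℝ) ^ (1 - ε) ≤ S.card → (H : ℝ) * (u : ℝ) ^ (-(2 * ε)) ≤ (hit u H S).card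

/-- **Module IM** (15 min). Few pairs have the same sum.

Proof: `b` is strictly increasing. For a sum `t` and `p ∈ F` with `b p.1 + b p.2 = t`:
`t ≤ 2 b p.1`, `b p.1 < t`. Three values `y₁ < y₂ < y₃` of `p.1` are impossible:
`b y₃ ≥ 2 ^ y₃ ≥ 2 * 2 ^ (y₁ + 1) > 2 b y₁ ≥ t`. And `p.1` determines `p.2`. So the fibres have at most two
elements (`Finset.card_le_mul_card_image`). -/
def S_IM : Prop := ∀ b : ℕ → ℕ, (∀ k, 2 ^ k ≤ b k ∧ b k < 2 ^ (k + 1)) → ∀ F : Finset (ℕ × ℕ),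
  (∀ p ∈ F, p.2 ≤ p.1) → F.card ≤ 2 * (F.image (fun p => b p.1 + b p.2)).card

open Classical in
/-- the pairs `z ≤ y < u` with `n = u² + y² + z² + 4w²` for some `w` -/
noncomputable def P1 (n u : ℕ) : Finset (ℕ × ℕ) :=
  (range u ×ˢ range u).filter (fun p => p.2 ≤ p.1 ∧ ∃ w : ℕ, n = u ^ 2 + p.1 ^ 2 + p.2 ^ 2 + 4 * w ^ 2)

open Classical in
/-- the `v < u` with `n = x² + y² + z² + w²`, `x + y = u`, `z + w = v` for some `x, y, z, w` -/
noncomputable def P2 (n u : ℕ) : Finset ℕ :=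
  (range u).filter (fun v => ∃ x y z w : ℕ, x + y = u ∧ z + w = v ∧
    n = x ^ 2 + y ^ 2 + z ^ 2 + w ^ 2)

/-- **Module R2B** (20 min). Sums of two squares.

Proof: the library has the divisor bound `Pool.Agent.H510R2.divisor_bound` and counts of representations
by sums of two squares bounded by the number of divisors (see the proof of `fibre2` in
`Pool/Agent/R494/SPL3.lean`). -/
def S_R2B : Prop := ∀ ε : ℝ, 0 < ε → ∃ C : ℝ, 0 < C ∧ ∀ m N : ℕ, 1 ≤ N → m ≤ N →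
  ∀ F : Finset (ℕ × ℕ), (∀ p ∈ F, p.1 ^ 2 + p.2 ^ 2 = m) → (F.card : ℝ) ≤ C * (N : ℝ) ^ ε

/-- **Module C1** (45 min). Many levels, first form.

Proof: library `Pool.Agent.TH696.FA.main_count3` with `K = 1` (file `Pool/Agent/TH696/FA/Final3.lean`;
all the conditions on `K` are trivial): at least `n ^ (1 - ε')` quadruples. At most `n ^ (1 / 2 + ε')` of
them have two of `x, y, z` equal (fix the equal coordinate, then R2B for `z² + (2w)²`; for `x = y`: fix `x`,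
for `x = z`, `y = z` the same by symmetry). Sort the other ones: `u > y > z`; at most six quadruples go to the
same triple. So `∑_u |P1 n u| ≥ n ^ (1 - ε') / 12`. The `u < n ^ (1/4)` contribute at most
`n ^ (3/4)` in all, the `u` with `|P1 n u| < u ^ (1 - ε)` at most `(√n + 1) n ^ ((1 - ε) / 2)`. The other `u`
contribute the rest, at least `n ^ (1 - ε') / 24`, and each at most `|P1 n u| ≤ n ^ (1/2 + ε')`
(fix `y`, R2B for `z² + (2w)²`). Take `ε' = ε / 4`. -/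
def S_C1 : Prop := ∀ ε : ℝ, 0 < ε → ε < 1 / 4 → ∀ᶠ n : ℕ in atTop, Odd n → ∃ X : Finset ℕ,
  (n : ℝ) ^ (1 / 2 - ε) ≤ X.card ∧ ∀ u ∈ X, u ≤ n ∧ (n : ℝ) ^ (1 / 4 : ℝ) ≤ u ∧
    (u : ℝ) ^ (1 - ε) ≤ (P1 n u).card

/-- **Module C2** (45 min). Many levels, second form.

Proof: library `Pool.Agent.TH696.FA.main_count` with `K = 1` (file `Pool/Agent/TH696/FA/Final.lean`): at
least `n ^ (1 - ε')` quadruples. For given `(x + y, z + w) = (u, v)` they satisfy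
`(x - y)² + (z - w)² = 2n - u² - v²`, so there are at most `n ^ ε'` of them (R2B; the signs cost a factor
four). At most `(√(2n) + 1) n ^ ε'` have `u = v`; interchange the pairs if `u < v`. So
`∑_u |P2 n u| ≥ n ^ (1 - 3 ε')`, `u ≤ √(2n)`, `|P2 n u| ≤ u`; finish as in C1. -/
def S_C2 : Prop := ∀ ε : ℝ, 0 < ε → ε < 1 / 4 → ∀ᶠ n : ℕ in atTop, Odd n → ∃ X : Finset ℕ,
  (n : ℝ) ^ (1 / 2 - ε) ≤ X.card ∧ ∀ u ∈ X, u ≤ n ∧ (n : ℝ) ^ (1 / 4 : ℝ) ≤ u ∧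
    (u : ℝ) ^ (1 - ε) ≤ (P2 n u).card

open Classical in
/-- **Module PE** (40 min). The trials.

Proof: for `K` let `f K ω = ∏_{u ∈ X, u < K} (if Suc u (a · ω) then 1/2 else 1)`. Show
`∫ f K ≤ (1 - δ/2) ^ #{u ∈ X, u < K}` by induction on `K`: `f (K + 1) = f K * g` where `g` depends on
`(a 0, ..., a K)`; `a K` is independent of `(a 0, ..., a (K-1))` (`iIndepFun.indepFun_finset`), and for a
fixed value of the past the mean of `g` over `a K` is at most `1 - δ/2`, because `Suc K` has probability at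
least `δ`. (Or: the law of `(a 0, ..., a (K - 1))` is uniform on a finite product, count.) Finally
`f = 2 ^ (-#successes) ≥ 2 ^ (-m)` if there are fewer than `m` successes (Markov). -/
def S_PE : Prop := ∀ (Ω : Type) [MeasurableSpace Ω] (μ : Measure Ω) [IsProbabilityMeasure μ]
  (a : ℕ → Ω → ℕ) (H : ℕ → ℕ), Model μ a H → ∀ Suc : ℕ → (ℕ → ℕ) → Prop,
  (∀ u b b', (∀ k ≤ u, b k = b' k) → Suc u b → Suc u b') →
  ∀ (X : Finset ℕ) (δ : ℝ), 0 ≤ δ → δ ≤ 1 →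
  (∀ u ∈ X, ∀ b, Val H b → δ * H u ≤
    (((Ico (2 ^ u) (2 ^ u + H u)).filter (fun T => Suc u (Function.update b u T))).card : ℝ)) →
  ∀ m : ℕ, μ.real {ω | (X.filter (fun u => Suc u (fun k => a k ω))).card < m} ≤
    2 ^ m * (1 - δ / 2) ^ X.card

end Pool.Agent.D0H86.PW
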