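import Pool.Agent.D0H86.PW.Stm2

set_option autoImplicit false

/-!
# Project PW, sparse form

The perturbed exponents lie in a fixed set `KK c` with `#(KK c ∩ [0, N)) ≤ N ^ (1 - c / 4)`; all the other
terms of the sequence are the powers of two themselves. This file needs only Mathlib.
-/

namespace Pool.Agent.D0H86.PW

open Finset Filter MeasureTheory ProbabilityTheory

/-- the first modulus, `t ^ 2 + 1` with `t = 2 ^ j` -/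
def M1 (j : ℕ) : ℕ := (2 ^ j) ^ 2 + 1

/-- the second modulus, `t ^ 2 + 1` with `t = 2 M1` -/
def M2 (j : ℕ) : ℕ := (2 * M1 j) ^ 2 + 1

/-- the sparse set of exponents -/
def KK (c : ℝ) : Set ℕ := {k | ∃ j : ℕ, 1 ≤ j ∧ (k : ℝ) ^ c ≤ 4 ^ j ∧ (M1 j ∣ k ∨ M2 j ∣ k)}

/-- **Module KS** (30 min). `KK c` is sparse.

Proof: the `k < √N` are at most `√N + 1`. The others, `√N ≤ k < N`, are divisible by some `M ∈ {M1 j, M2 j}`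
with `M > 4 ^ j ≥ k ^ c ≥ N ^ (c / 2)`; `k ≥ 1` so `M ≤ k < N`, hence `j ≤ log₂ N + 1`. So at most
`2 (log₂ N + 2)` moduli `M`, each with at most `N / M + 1 ≤ 2 N ^ (1 - c / 2)` multiples in `[1, N)`
(`M ≤ N`; `Nat.count_modEq_card` or `Nat.card_multiples`). -/
def S_KS : Prop := ∀ c : ℝ, 0 < c → c ≤ 1 → ∀ᶠ N : ℕ in atTop,
  ((open Classical in (range N).filter (fun k => k ∈ KK c)).card : ℝ) ≤ (N : ℝ) ^ (1 - c / 4)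

/-- **Module O1** (45 min). Quadruples in the class, first form.

Proof: library `Pool.Agent.TH696.FA.orth_count` (file `Pool/Agent/TH696/FA/OrthCount.lean`, see the proof of
`main_count` in `Pool/Agent/TH696/FA/Final.lean` for its use) with `D = 4 * M1 j * M2 j`,
`n ^ c ≤ 4 ^ j ≤ 4 n ^ c`, `c = δ / 10` (`D ≤ 10000 * (4 ^ j) ^ 3`), and the class `u` with

* `(u 0, u 1, u 2, u 3) ≡ (0, 0, a, b)` modulo `M1 j`, `a ^ 2 + b ^ 2 ≡ n`,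
* `≡ (a', b', 0, 0)` modulo `M2 j`, `a' ^ 2 + b' ^ 2 ≡ n`,
* modulo 8: `(1,0,0,0)`, `(1,1,1,0)`, `(1,2,0,0)`, `(1,1,1,2)` if `n ≡ 1, 3, 5, 7`.

For `M = t ^ 2 + 1`, `t` even, `2 g ≡ 1`: `a = (n + 1) g`, `b = t (n - 1) g` satisfy
`a ^ 2 + b ^ 2 ≡ n` and `a + t b ≡ 1`, so no prime divisor of `M` divides both. `crt3` is in
`Pool/Agent/TH696/FA/Orth.lean`. `X 3` is even, `w = X 3 / 2`. -/
def S_O1 : Prop := ∀ ε : ℝ, 0 < ε → ∃ c : ℝ, 0 < c ∧ c ≤ 1 ∧ ∀ᶠ n : ℕ in atTop, Odd n →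
  ∃ G : Finset (ℕ × ℕ × ℕ × ℕ), (n : ℝ) ^ (1 - ε) ≤ G.card ∧ ∀ x y z w : ℕ, (x, y, z, w) ∈ G →
    n = x ^ 2 + y ^ 2 + z ^ 2 + 4 * w ^ 2 ∧ x ∈ KK c ∧ y ∈ KK c ∧ z ∈ KK c

/-- **Module O2** (40 min). Quadruples in the class, second form.

Proof: as O1, with `D = 4 * M1 j`, and the class `(a, -a, b, -b)` modulo `M1 j`, `2 (a ^ 2 + b ^ 2) ≡ n`
(`2 g ≡ 1`, `m = n g`, `a = (m + 1) g`, `b = t (m - 1) g`), modulo 8 as in O1 (any class with sum of squares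
`≡ n` and an odd coordinate). Then `M1 j ∣ x + y` and `M1 j ∣ z + w`. -/
def S_O2 : Prop := ∀ ε : ℝ, 0 < ε → ∃ c : ℝ, 0 < c ∧ c ≤ 1 ∧ ∀ᶠ n : ℕ in atTop, Odd n →
  ∃ G : Finset (ℕ × ℕ × ℕ × ℕ), (n : ℝ) ^ (1 - ε) ≤ G.card ∧ ∀ x y z w : ℕ, (x, y, z, w) ∈ G →
    n = x ^ 2 + y ^ 2 + z ^ 2 + w ^ 2 ∧ x + y ∈ KK c ∧ z + w ∈ KK c

/-- **Module G1** (45 min; replaces C1). Many levels, first form.

Proof: as C1, with the given set `G` in place of the set of `main_count3`. With `ε' = ε / 4`: at most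
`n ^ (1 / 2 + ε')` of the quadruples have two of `x, y, z` equal. Sort the other ones: `u > y > z`; at most six
quadruples go to the same triple. So `∑ |P1 n u| ≥ n ^ (1 - ε') / 12` over the `u` that are coordinates of
members of `G`. The `u < n ^ (1/4)` contribute at most `n ^ (3/4)` in all, the `u` with
`|P1 n u| < u ^ (1 - ε)` at most `(√n + 1) n ^ ((1 - ε) / 2)`. The other `u` contribute the rest, and each at
most `|P1 n u| ≤ n ^ (1/2 + ε')`. -/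
def S_G1 : Prop := ∀ ε : ℝ, 0 < ε → ε < 1 / 4 → ∀ᶠ n : ℕ in atTop, Odd n →
  ∀ G : Finset (ℕ × ℕ × ℕ × ℕ), (n : ℝ) ^ (1 - ε / 4) ≤ G.card →
  (∀ x y z w : ℕ, (x, y, z, w) ∈ G → n = x ^ 2 + y ^ 2 + z ^ 2 + 4 * w ^ 2) →
  ∃ X : Finset ℕ, (n : ℝ) ^ (1 / 2 - ε) ≤ X.card ∧ ∀ u ∈ X,
    (∃ x y z w : ℕ, (x, y, z, w) ∈ G ∧ (u = x ∨ u = y ∨ u = z)) ∧ u ≤ n ∧
    (n : ℝ) ^ (1 / 4 : ℝ) ≤ u ∧ (u : ℝ) ^ (1 - ε) ≤ (P1 n u).card

/-- **Module G2** (45 min; replaces C2). Many levels, second form.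

Proof: as C2, with the given set `G` in place of the set of `main_count`. -/
def S_G2 : Prop := ∀ ε : ℝ, 0 < ε → ε < 1 / 4 → ∀ᶠ n : ℕ in atTop, Odd n →
  ∀ G : Finset (ℕ × ℕ × ℕ × ℕ), (n : ℝ) ^ (1 - ε / 4) ≤ G.card →
  (∀ x y z w : ℕ, (x, y, z, w) ∈ G → n = x ^ 2 + y ^ 2 + z ^ 2 + w ^ 2) →
  ∃ X : Finset ℕ, (n : ℝ) ^ (1 / 2 - ε) ≤ X.card ∧ ∀ u ∈ X,
    (∃ x y z w : ℕ, (x, y, z, w) ∈ G ∧ (u = x + y ∨ u = z + w)) ∧ u ≤ n ∧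
    (n : ℝ) ^ (1 / 4 : ℝ) ≤ u ∧ (u : ℝ) ^ (1 - ε) ≤ (P2 n u).card

end Pool.Agent.D0H86.PW
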