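import Pool.Agent.D0H86.PW.Stm2

set_option autoImplicit false

/-! Project PW: assembly. -/

namespace Pool.Agent.D0H86.PW

open Finset Filter MeasureTheory ProbabilityTheory Topology

/-- numerical estimate -/
theorem num (e : ℝ) (he : 0 < e) (he1 : e ≤ 1 / 24) : ∀ᶠ n : ℕ in atTop, ∀ (N m : ℕ),
    (n : ℝ) ^ (1 / 2 - e) ≤ N → (m : ℝ) ≤ (n : ℝ) ^ (1 / 2 - 6 * e) + 1 →
    (2 : ℝ) ^ m * (1 - (n : ℝ) ^ (-(4 * e)) / 2) ^ N ≤ 1 / (n : ℝ) ^ 2 := by
  have h1 : ∀ᶠ n : ℕ in atTop, 4 ≤ (n : ℝ) ^ e :=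
    ((tendsto_rpow_atTop he).comp tendsto_natCast_atTop_atTop).eventually_ge_atTop _
  have h2 : ∀ᶠ n : ℕ in atTop, 2 * Real.log n + 1 ≤ (n : ℝ) ^ (1 / 4 : ℝ) := by
    have h3 := (isLittleO_log_rpow_atTop (show (0 : ℝ) < 1 / 4 by norm_num)).bound
      (show (0 : ℝ) < 1 / 4 by norm_num)
    have h4 : ∀ᶠ n : ℕ in atTop, 2 ≤ (n : ℝ) ^ (1 / 4 : ℝ) :=
      ((tendsto_rpow_atTop (by norm_num : (0 : ℝ) < 1 / 4)).comp
        tendsto_natCast_atTop_atTop).eventually_ge_atTop _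
    filter_upwards [tendsto_natCast_atTop_atTop.eventually h3, h4, eventually_ge_atTop 1]
      with n h5 h6 h7
    have hn1 : (1 : ℝ) ≤ n := by exact_mod_cast h7
    rw [Real.norm_eq_abs, Real.norm_eq_abs, abs_of_nonneg (Real.log_nonneg hn1),
      abs_of_nonneg (by positivity)] at h5
    linarith
  filter_upwards [h1, h2, eventually_ge_atTop 1] with n h3 h4 h5 N m hN hm
  have hn1 : (1 : ℝ) ≤ n := by exact_mod_cast h5
  have hn0 : (0 : ℝ) < n := by linarith
  set D : ℝ := (n : ℝ) ^ (-(4 * e)) with hD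
  have hD0 : 0 < D := by positivity
  have hD1 : D ≤ 1 := Real.rpow_le_one_of_one_le_of_nonpos hn1 (by linarith)
  have hb : (1 - D / 2) ^ N ≤ Real.exp (-(D / 2 * N)) := by
    calc (1 - D / 2) ^ N ≤ (Real.exp (-(D / 2))) ^ N := by
          apply pow_le_pow_left₀ (by linarith)
          exact Real.one_sub_le_exp_neg _
      _ = _ := by
          rw [← Real.exp_nat_mul]
          congr 1
          ring
  have ha : (2 : ℝ) ^ m ≤ Real.exp m := by
    calc (2 : ℝ) ^ m ≤ (Real.exp 1) ^ m := by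
          apply pow_le_pow_left₀ (by norm_num)
          have := Real.add_one_le_exp (1 : ℝ)
          linarith
      _ = _ := by rw [← Real.exp_nat_mul, mul_one]
  have hDN : (n : ℝ) ^ (1 / 2 - 6 * e) * (n : ℝ) ^ e ≤ D * N := by
    calc (n : ℝ) ^ (1 / 2 - 6 * e) * (n : ℝ) ^ e = D * (n : ℝ) ^ (1 / 2 - e) := by
          rw [hD, ← Real.rpow_add hn0, ← Real.rpow_add hn0]
          congr 1
          ring
      _ ≤ D * N := mul_le_mul_of_nonneg_left hN hD0.le
  have hA : (n : ℝ) ^ (1 / 4 : ℝ) ≤ (n : ℝ) ^ (1 / 2 - 6 * e) :=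
    Real.rpow_le_rpow_of_exponent_le hn1 (by linarith)
  have hA0 : 0 < (n : ℝ) ^ (1 / 2 - 6 * e) := by positivity
  have h6 : (m : ℝ) - D / 2 * N ≤ -(2 * Real.log n) := by
    have h7 : (n : ℝ) ^ (1 / 2 - 6 * e) * 4 ≤ D * N :=
      (mul_le_mul_of_nonneg_left h3 hA0.le).trans hDN
    linarith
  calc (2 : ℝ) ^ m * (1 - D / 2) ^ N ≤ Real.exp m * Real.exp (-(D / 2 * N)) := by
        apply mul_le_mul ha hb _ (Real.exp_pos _).le
        apply pow_nonneg
        linarith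
    _ = Real.exp (m - D / 2 * N) := by
        rw [← Real.exp_add]
        congr 1
    _ ≤ Real.exp (-(2 * Real.log n)) := Real.exp_le_exp.2 h6
    _ = 1 / (n : ℝ) ^ 2 := by
        rw [Real.exp_neg, two_mul, Real.exp_add, Real.exp_log hn0, one_div, sq]

open Classical in
/-- the law from the trials -/
theorem law (hPE : S_PE) {Ω : Type} [MeasurableSpace Ω] {μ : Measure Ω} [IsProbabilityMeasure μ]
    {a : ℕ → Ω → ℕ} {H : ℕ → ℕ} (hM : Model μ a H) (Suc : ℕ → ℕ → (ℕ → ℕ) → Prop)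
    (hloc : ∀ n u b b', (∀ k ≤ u, b k = b' k) → Suc n u b → Suc n u b')
    (R : (ℕ → ℕ) → ℕ → ℕ)
    (hR : ∀ b n (F : Finset ℕ), (∀ u ∈ F, Suc n u b) → F.card ≤ R b n)
    (hX : ∀ ε : ℝ, 0 < ε → ε < 1 / 4 → ∀ᶠ n : ℕ in atTop, Odd n → ∃ X : Finset ℕ,
      (n : ℝ) ^ (1 / 2 - ε) ≤ X.card ∧ ∀ u ∈ X, ∀ b, Val H b → (n : ℝ) ^ (-(4 * ε)) * H u ≤
        (((Ico (2 ^ u) (2 ^ u + H u)).filter (fun T => Suc n u (Function.update b u T))).card : ℝ)) :
    ∀ᵐ ω ∂μ, ∀ ε : ℝ, 0 < ε → ∀ᶠ n : ℕ in atTop, Odd n →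
      (n : ℝ) ^ (1 / 2 - ε) ≤ R (fun k => a k ω) n := by
  have key : ∀ e : ℝ, 0 < e → e ≤ 1 / 24 → ∀ᵐ ω ∂μ, ∀ᶠ n : ℕ in atTop, Odd n →
      (n : ℝ) ^ (1 / 2 - 6 * e) ≤ R (fun k => a k ω) n := by
    intro e he he1
    set E : ℕ → Set Ω := fun n => {ω | Odd n ∧ (R (fun k => a k ω) n : ℝ) < (n : ℝ) ^ (1 / 2 - 6 * e)}
      with hE
    have hbd : ∀ᶠ n : ℕ in atTop, μ (E n) ≤ ENNReal.ofReal (1 / (n : ℝ) ^ 2) := by
      filter_upwards [num e he he1, hX e he (by linarith), eventually_ge_atTop 1] with n h1 h2 h3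
      have hn1 : (1 : ℝ) ≤ n := by exact_mod_cast h3
      have hn0 : (0 : ℝ) < n := by linarith
      by_cases hn : Odd n
      · obtain ⟨X, hX1, hX2⟩ := h2 hn
        set m : ℕ := ⌈(n : ℝ) ^ (1 / 2 - 6 * e)⌉₊ with hm
        have hD1 : (n : ℝ) ^ (-(4 * e)) ≤ 1 := Real.rpow_le_one_of_one_le_of_nonpos hn1 (by linarith)
        have h4 := hPE Ω μ a H hM (Suc n) (hloc n) X ((n : ℝ) ^ (-(4 * e))) (by positivity) hD1 hX2 m
        have h5 := h1 X.card m hX1 (by
          rw [hm]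
          exact (Nat.ceil_lt_add_one (by positivity)).le)
        have hsub : E n ⊆ {ω | (X.filter (fun u => Suc n u (fun k => a k ω))).card < m} := by
          rintro ω ⟨-, hω⟩
          have h6 := hR (fun k => a k ω) n (X.filter (fun u => Suc n u (fun k => a k ω)))
            (fun u hu => (mem_filter.1 hu).2)
          have h7 : (((X.filter (fun u => Suc n u (fun k => a k ω))).card : ℕ) : ℝ) < m := by
            have h8 : (((X.filter (fun u => Suc n u (fun k => a k ω))).card : ℕ) : ℝ) ≤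
                R (fun k => a k ω) n := by exact_mod_cast h6
            exact (h8.trans_lt hω).trans_le (Nat.le_ceil _)
          show (X.filter (fun u => Suc n u (fun k => a k ω))).card < m
          exact_mod_cast h7
        refine (measure_mono hsub).trans ?_
        rw [← ENNReal.ofReal_toReal (measure_ne_top μ _)]
        exact ENNReal.ofReal_le_ofReal (h4.trans h5)
      · have : E n = ∅ := by
          ext ω
          simp [hE, hn]
        rw [this, measure_empty]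
        exact zero_le
    obtain ⟨n0, hn0⟩ := eventually_atTop.1 hbd
    have hsum : ∑' n : ℕ, μ (E (n + n0)) ≠ ⊤ := by
      have h1 : Summable (fun n : ℕ => 1 / (((n + n0 : ℕ) : ℝ)) ^ 2) := by
        have := (Real.summable_one_div_nat_pow (p := 2)).2 (by norm_num)
        exact (summable_nat_add_iff (f := fun n : ℕ => 1 / (n : ℝ) ^ 2) n0).2 this
      refine ne_top_of_le_ne_top h1.tsum_ofReal_ne_top ?_
      exact ENNReal.tsum_le_tsum fun n => hn0 (n + n0) (by omega)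
    filter_upwards [ae_eventually_notMem hsum] with ω hω
    obtain ⟨n1, hn1⟩ := eventually_atTop.1 hω
    rw [eventually_atTop]
    refine ⟨n1 + n0, fun n hn hodd => ?_⟩
    have h1 := hn1 (n - n0) (by omega)
    rw [show n - n0 + n0 = n by omega] at h1
    by_contra h2
    push Not at h2
    exact h1 ⟨hodd, h2⟩
  have hall : ∀ᵐ ω ∂μ, ∀ j : ℕ, ∀ᶠ n : ℕ in atTop, Odd n →
      (n : ℝ) ^ (1 / 2 - 6 * (1 / (24 * ((j : ℝ) + 1)))) ≤ R (fun k => a k ω) n := by
    rw [ae_all_iff]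
    intro j
    apply key
    · positivity
    · rw [div_le_div_iff₀ (by positivity) (by norm_num)]
      have : (0 : ℝ) ≤ j := Nat.cast_nonneg _
      linarith
  filter_upwards [hall] with ω hω ε hε
  obtain ⟨j, hj⟩ := exists_nat_gt (1 / (4 * ε))
  filter_upwards [hω j, eventually_ge_atTop 1] with n h1 h2 hodd
  have hn1 : (1 : ℝ) ≤ n := by exact_mod_cast h2
  refine le_trans ?_ (h1 hodd)
  apply Real.rpow_le_rpow_of_exponent_le hn1
  have h3 : 6 * (1 / (24 * ((j : ℝ) + 1))) ≤ ε := by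
    rw [mul_one_div, div_le_iff₀ (by positivity)]
    rw [div_lt_iff₀ (by positivity)] at hj
    nlinarith
  linarith

end Pool.Agent.D0H86.PW
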