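import Pool.Agent.D0H86.PW.Rows3

set_option autoImplicit false

/-! Project PW, very sparse form: numerics, trials, rows. -/

namespace Pool.Agent.D0H86.PW

open Finset Filter MeasureTheory ProbabilityTheory Topology

/-- numerical estimate -/
theorem num2 (s e : ℝ) (he : 0 < e) (hs : 2 * e ≤ s) : ∀ᶠ n : ℕ in atTop, ∀ (N m : ℕ) (q : ℝ),
    0 ≤ q → q ≤ 1 → (n : ℝ) ^ s ≤ q * N → (m : ℝ) ≤ (n : ℝ) ^ (s - e) + 1 →
    (2 : ℝ) ^ m * (1 - q / 2) ^ N ≤ 1 / (n : ℝ) ^ 2 := by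
  have h1 : ∀ᶠ n : ℕ in atTop, 4 ≤ (n : ℝ) ^ e :=
    ((tendsto_rpow_atTop he).comp tendsto_natCast_atTop_atTop).eventually_ge_atTop _
  have h2 : ∀ᶠ n : ℕ in atTop, 2 * Real.log n + 1 ≤ (n : ℝ) ^ e := by
    have h3 := (isLittleO_log_rpow_atTop he).bound (show (0 : ℝ) < 1 / 4 by norm_num)
    have h4 : ∀ᶠ n : ℕ in atTop, 2 ≤ (n : ℝ) ^ e :=
      ((tendsto_rpow_atTop he).comp tendsto_natCast_atTop_atTop).eventually_ge_atTop _
    filter_upwards [tendsto_natCast_atTop_atTop.eventually h3, h4, eventually_ge_atTop 1]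
      with n h5 h6 h7
    have hn1 : (1 : ℝ) ≤ n := by exact_mod_cast h7
    rw [Real.norm_eq_abs, Real.norm_eq_abs, abs_of_nonneg (Real.log_nonneg hn1),
      abs_of_nonneg (by positivity)] at h5
    linarith
  filter_upwards [h1, h2, eventually_ge_atTop 1] with n h3 h4 h5 N m q hq0 hq1 hN hm
  have hn1 : (1 : ℝ) ≤ n := by exact_mod_cast h5
  have hn0 : (0 : ℝ) < n := by linarith
  have hb : (1 - q / 2) ^ N ≤ Real.exp (-(q / 2 * N)) := by
    calc (1 - q / 2) ^ N ≤ (Real.exp (-(q / 2))) ^ N := by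
          apply pow_le_pow_left₀ (by linarith)
          exact Real.one_sub_le_exp_neg _
      _ = _ := by
          rw [← Real.exp_nat_mul]
          congr 1
          ring
  have ha : (2 : ℝ) ^ m ≤ Real.exp m := by
    calc (2 : ℝ) ^ m ≤ (Real.exp 1) ^ m := by
          apply pow_le_pow_left₀ (by norm_num)
          have := Real.add_one_le_exp (1 : ℝ)
          linarith
      _ = _ := by rw [← Real.exp_nat_mul, mul_one]
  have hDN : (n : ℝ) ^ (s - e) * (n : ℝ) ^ e ≤ q * N := by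
    calc (n : ℝ) ^ (s - e) * (n : ℝ) ^ e = (n : ℝ) ^ s := by
          rw [← Real.rpow_add hn0]
          congr 1
          ring
      _ ≤ q * N := hN
  have hA : (n : ℝ) ^ e ≤ (n : ℝ) ^ (s - e) :=
    Real.rpow_le_rpow_of_exponent_le hn1 (by linarith)
  have hA0 : 0 < (n : ℝ) ^ (s - e) := by positivity
  have h6 : (m : ℝ) - q / 2 * N ≤ -(2 * Real.log n) := by
    have h7 : (n : ℝ) ^ (s - e) * 4 ≤ q * N :=
      (mul_le_mul_of_nonneg_left h3 hA0.le).trans hDN
    linarith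
  calc (2 : ℝ) ^ m * (1 - q / 2) ^ N ≤ Real.exp m * Real.exp (-(q / 2 * N)) := by
        apply mul_le_mul ha hb _ (Real.exp_pos _).le
        apply pow_nonneg
        linarith
    _ = Real.exp (m - q / 2 * N) := by
        rw [← Real.exp_add]
        congr 1
    _ ≤ Real.exp (-(2 * Real.log n)) := Real.exp_le_exp.2 h6
    _ = 1 / (n : ℝ) ^ 2 := by
        rw [Real.exp_neg, two_mul, Real.exp_add, Real.exp_log hn0, one_div, sq]

open Classical in
/-- the law from the trials -/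
theorem law3 (hPE : S_PE) {Ω : Type} [MeasurableSpace Ω] {μ : Measure Ω} [IsProbabilityMeasure μ]
    {a : ℕ → Ω → ℕ} {H : ℕ → ℕ} (hM : Model μ a H) (Suc : ℕ → ℕ → (ℕ → ℕ) → Prop)
    (hloc : ∀ n u b b', (∀ k ≤ u, b k = b' k) → Suc n u b → Suc n u b')
    (X : ℕ → Finset ℕ) (q : ℕ → ℝ) (m : ℕ → ℕ)
    (hX : ∀ᶠ n : ℕ in atTop, Odd n → 0 ≤ q n ∧ q n ≤ 1 ∧
      (2 : ℝ) ^ m n * (1 - q n / 2) ^ (X n).card ≤ 1 / (n : ℝ) ^ 2 ∧
      ∀ u ∈ X n, ∀ b, Val H b → q n * H u ≤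
        (((Ico (2 ^ u) (2 ^ u + H u)).filter (fun T => Suc n u (Function.update b u T))).card : ℝ)) :
    ∀ᵐ ω ∂μ, ∀ᶠ n : ℕ in atTop, Odd n →
      m n ≤ ((X n).filter (fun u => Suc n u (fun k => a k ω))).card := by
  set E : ℕ → Set Ω := fun n => {ω | Odd n ∧
    ((X n).filter (fun u => Suc n u (fun k => a k ω))).card < m n} with hE
  have hbd : ∀ᶠ n : ℕ in atTop, μ (E n) ≤ ENNReal.ofReal (1 / (n : ℝ) ^ 2) := by
    filter_upwards [hX] with n h1
    by_cases hn : Odd n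
    · obtain ⟨hq0, hq1, hnum, hsuc⟩ := h1 hn
      have h4 := hPE Ω μ a H hM (Suc n) (hloc n) (X n) (q n) hq0 hq1 hsuc (m n)
      have hsub : E n ⊆ {ω | ((X n).filter (fun u => Suc n u (fun k => a k ω))).card < m n} := by
        rintro ω ⟨-, hω⟩
        exact hω
      refine (measure_mono hsub).trans ?_
      rw [← ENNReal.ofReal_toReal (measure_ne_top μ _)]
      exact ENNReal.ofReal_le_ofReal (h4.trans hnum)
    · have : E n = ∅ := by
        ext ω
        simp [hE, hn]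
      rw [this, measure_empty]
      exact zero_le
  obtain ⟨n0, hn0⟩ := eventually_atTop.1 hbd
  have hsum : ∑' n : ℕ, μ (E (n + n0)) ≠ ⊤ := by
    have h1 : Summable (fun n : ℕ => 1 / (((n + n0 : ℕ) : ℝ)) ^ 2) := by
      have := (Real.summable_one_div_nat_pow (p := 2)).2 (by norm_num)
      exact (summable_nat_add_iff (f := fun n : ℕ => 1 / (n : ℝ) ^ 2) n0).2 this
    refine ne_top_of_le_ne_top h1.tsum_ofReal_ne_top ?_
    exact ENNReal.tsum_le_tsum fun n => hn0 (n + n0) (by omega)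
  filter_upwards [ae_eventually_notMem hsum] with ω hω
  obtain ⟨n1, hn1⟩ := eventually_atTop.1 hω
  rw [eventually_atTop]
  refine ⟨n1 + n0, fun n hn hodd => ?_⟩
  have h1 := hn1 (n - n0) (by omega)
  rw [show n - n0 + n0 = n by omega] at h1
  by_contra h2
  push Not at h2
  exact h1 ⟨hodd, h2⟩

end Pool.Agent.D0H86.PW
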