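import Pool.Agent.D0H86.PW.Rows3

set_option autoImplicit false

/-! Project PW, sparse form: the two theorems from the modules. -/

namespace Pool.Agent.D0H86.PW

open Finset Filter MeasureTheory ProbabilityTheory Topology

/-- a sequence from the model -/
theorem exist_b (hEX : S_EX) (δ : ℝ) (hδ1 : δ < 1) (K : Set ℕ) (L : (ℕ → ℕ) → Prop)
    (hlaw : ∀ H : ℕ → ℕ, (∀ k, H k ≤ 2 ^ k) → (∀ᶠ k : ℕ in atTop, k ∈ K → (2 : ℝ) ^ (δ * k) ≤ H k) →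
      ∀ (Ω : Type) [MeasurableSpace Ω] (μ : Measure Ω) [IsProbabilityMeasure μ] (a : ℕ → Ω → ℕ),
        Model μ a H → ∀ᵐ ω ∂μ, L (fun k => a k ω)) :
    ∃ b : ℕ → ℕ, (∀ k, k ∉ K → b k = 2 ^ k) ∧
      (∀ k, 2 ^ k ≤ b k ∧ (b k : ℝ) ≤ 2 ^ k + (2 : ℝ) ^ (δ * k)) ∧ L b := by
  classical
  set H : ℕ → ℕ := fun k => if k ∈ K then ⌈(2 : ℝ) ^ (δ * k)⌉₊ else 1 with hH
  have hpos : ∀ k : ℕ, (0 : ℝ) < (2 : ℝ) ^ (δ * k) := fun k => by positivity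
  have h1 : ∀ k, 1 ≤ H k := by
    intro k
    simp only [hH]
    split_ifs with h
    · exact Nat.ceil_pos.2 (hpos k)
    · exact le_rfl
  have h2 : ∀ k, H k ≤ 2 ^ k := by
    intro k
    simp only [hH]
    split_ifs with h
    · apply Nat.ceil_le.2
      push_cast
      rw [← Real.rpow_natCast]
      apply Real.rpow_le_rpow_of_exponent_le (by norm_num)
      have : (0 : ℝ) ≤ k := Nat.cast_nonneg k
      nlinarith
    · exact Nat.one_le_two_pow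
  obtain ⟨μ, hμ, hM⟩ := hEX H h1
  have h3 := hlaw H h2 (Eventually.of_forall fun k hk => by
    simp only [hH, if_pos hk]
    exact Nat.le_ceil _) (ℕ → ℕ) μ (fun k ω => ω k) hM
  have h4 := ae_val hM
  obtain ⟨b, hb1, hb2'⟩ := (h3.and h4).exists
  have hb2 : ∀ k, 2 ^ k ≤ b k ∧ b k < 2 ^ k + H k := hb2'
  refine ⟨b, fun k hk => ?_, fun k => ⟨(hb2 k).1, ?_⟩, hb1⟩
  · have h5 := hb2 k
    simp only [hH, if_neg hk] at h5
    omega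
  · have h5 := (hb2 k).2
    by_cases hk : k ∈ K
    · simp only [hH, if_pos hk] at h5
      have h6 : b k - 2 ^ k < ⌈(2 : ℝ) ^ (δ * k)⌉₊ := by
        have := (hb2 k).1
        omega
      have h7 := Nat.lt_ceil.1 h6
      rw [Nat.cast_sub (hb2 k).1] at h7
      push_cast at h7
      linarith
    · simp only [hH, if_neg hk] at h5
      have h6 : b k ≤ 2 ^ k := by omega
      have h7 : (b k : ℝ) ≤ 2 ^ k := by exact_mod_cast h6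
      have := hpos k
      linarith

/-- the first row -/
theorem main1 (hPE : S_PE) (h3 : S_N3) (hI : S_IM) (hG : S_G1) (hO : S_O1) (hK : S_KS) (hEX : S_EX) :
    ∃ δ : ℝ, 0 < δ ∧ δ < 1 ∧ ∀ γ : ℝ, 0 < γ → ∃ c : ℝ, 0 < c ∧ ∃ K : Set ℕ,
      (∀ᶠ N : ℕ in atTop, ((K ∩ Set.Iio N).ncard : ℝ) ≤ (N : ℝ) ^ (1 - c)) ∧
      (∀ H : ℕ → ℕ, (∀ k, H k ≤ 2 ^ k) → (∀ᶠ k : ℕ in atTop, k ∈ K → (2 : ℝ) ^ (δ * k) ≤ H k) →
        ∀ (Ω : Type) [MeasurableSpace Ω] (μ : Measure Ω) [IsProbabilityMeasure μ] (a : ℕ → Ω → ℕ),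
          Model μ a H → ∀ᵐ ω ∂μ, ∀ᶠ n : ℕ in atTop, Odd n →
            (n : ℝ) ^ (1 / 2 - γ) ≤ (Q1 (fun k => a k ω) n).ncard) ∧
      ∃ b : ℕ → ℕ, (∀ k, k ∉ K → b k = 2 ^ k) ∧
        (∀ k, 2 ^ k ≤ b k ∧ (b k : ℝ) ≤ 2 ^ k + (2 : ℝ) ^ (δ * k)) ∧
        ∀ᶠ n : ℕ in atTop, Odd n → (n : ℝ) ^ (1 / 2 - γ) ≤ (Q1 b n).ncard := by
  classical
  obtain ⟨δ, hδ, hδ1, hrow⟩ := rowK1 h3 hI hG hO
  refine ⟨δ, hδ, hδ1, fun γ hγ => ?_⟩
  set e : ℝ := min (γ / 6) (1 / 24) with he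
  have he0 : 0 < e := lt_min (by positivity) (by norm_num)
  have he1 : e ≤ 1 / 24 := min_le_right _ _
  have heγ : 6 * e ≤ γ := by
    have := min_le_left (γ / 6) (1 / 24)
    linarith
  obtain ⟨c, hc0, hc1, hrow'⟩ := hrow e he0 (by linarith)
  have hlaw : ∀ H : ℕ → ℕ, (∀ k, H k ≤ 2 ^ k) →
      (∀ᶠ k : ℕ in atTop, k ∈ KK c → (2 : ℝ) ^ (δ * k) ≤ H k) →
      ∀ (Ω : Type) [MeasurableSpace Ω] (μ : Measure Ω) [IsProbabilityMeasure μ] (a : ℕ → Ω → ℕ),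
        Model μ a H → ∀ᵐ ω ∂μ, ∀ᶠ n : ℕ in atTop, Odd n →
          (n : ℝ) ^ (1 / 2 - γ) ≤ (Q1 (fun k => a k ω) n).ncard := by
    intro H hH hHl Ω _ μ _ a hM
    have h5 := law1 hPE hM Suc1 loc1 (fun b n => (Q1 b n).ncard) (fun b n F hF => count1 b n F hF)
      e he0 he1 (by
        filter_upwards [hrow' H hH hHl] with n hn hno
        obtain ⟨X, hX1, hX2⟩ := hn hno
        exact ⟨X, hX1, fun u hu b hb => hX2 u hu b hb⟩)
    filter_upwards [h5] with ω hω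
    filter_upwards [hω, eventually_ge_atTop 1] with n hn hn1 hno
    refine le_trans ?_ (hn hno)
    exact Real.rpow_le_rpow_of_exponent_le (by exact_mod_cast hn1) (by linarith)
  refine ⟨c / 4, by positivity, KK c, ?_, hlaw, exist_b hEX δ hδ1 (KK c) _ hlaw⟩
  filter_upwards [hK c hc0 hc1] with N hN
  refine le_trans (le_of_eq ?_) hN
  rw [← Set.ncard_coe_finset]
  have hset : KK c ∩ Set.Iio N = (((range N).filter (fun k => k ∈ KK c) : Finset ℕ) : Set ℕ) := by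
    ext k
    simp [and_comm]
  rw [hset]

/-- the second row -/
theorem main2 (hPE : S_PE) (h3 : S_N3) (hG : S_G2) (hO : S_O2) (hK : S_KS) (hEX : S_EX) :
    ∃ δ : ℝ, 0 < δ ∧ δ < 1 ∧ ∀ γ : ℝ, 0 < γ → ∃ c : ℝ, 0 < c ∧ ∃ K : Set ℕ,
      (∀ᶠ N : ℕ in atTop, ((K ∩ Set.Iio N).ncard : ℝ) ≤ (N : ℝ) ^ (1 - c)) ∧
      (∀ H : ℕ → ℕ, (∀ k, H k ≤ 2 ^ k) → (∀ᶠ k : ℕ in atTop, k ∈ K → (2 : ℝ) ^ (δ * k) ≤ H k) →
        ∀ (Ω : Type) [MeasurableSpace Ω] (μ : Measure Ω) [IsProbabilityMeasure μ] (a : ℕ → Ω → ℕ),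
          Model μ a H → ∀ᵐ ω ∂μ, ∀ᶠ n : ℕ in atTop, Odd n →
            (n : ℝ) ^ (1 / 2 - γ) ≤ (Q2 (fun k => a k ω) n).ncard) ∧
      ∃ b : ℕ → ℕ, (∀ k, k ∉ K → b k = 2 ^ k) ∧
        (∀ k, 2 ^ k ≤ b k ∧ (b k : ℝ) ≤ 2 ^ k + (2 : ℝ) ^ (δ * k)) ∧
        ∀ᶠ n : ℕ in atTop, Odd n → (n : ℝ) ^ (1 / 2 - γ) ≤ (Q2 b n).ncard := by
  classical
  obtain ⟨δ, hδ, hδ1, hrow⟩ := rowK2 h3 hG hO
  refine ⟨δ, hδ, hδ1, fun γ hγ => ?_⟩
  set e : ℝ := min (γ / 6) (1 / 24) with he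
  have he0 : 0 < e := lt_min (by positivity) (by norm_num)
  have he1 : e ≤ 1 / 24 := min_le_right _ _
  have heγ : 6 * e ≤ γ := by
    have := min_le_left (γ / 6) (1 / 24)
    linarith
  obtain ⟨c, hc0, hc1, hrow'⟩ := hrow e he0 (by linarith)
  have hlaw : ∀ H : ℕ → ℕ, (∀ k, H k ≤ 2 ^ k) →
      (∀ᶠ k : ℕ in atTop, k ∈ KK c → (2 : ℝ) ^ (δ * k) ≤ H k) →
      ∀ (Ω : Type) [MeasurableSpace Ω] (μ : Measure Ω) [IsProbabilityMeasure μ] (a : ℕ → Ω → ℕ),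
        Model μ a H → ∀ᵐ ω ∂μ, ∀ᶠ n : ℕ in atTop, Odd n →
          (n : ℝ) ^ (1 / 2 - γ) ≤ (Q2 (fun k => a k ω) n).ncard := by
    intro H hH hHl Ω _ μ _ a hM
    have h5 := law1 hPE hM Suc2 loc2 (fun b n => (Q2 b n).ncard) (fun b n F hF => count2 b n F hF)
      e he0 he1 (by
        filter_upwards [hrow' H hH hHl] with n hn hno
        obtain ⟨X, hX1, hX2⟩ := hn hno
        exact ⟨X, hX1, fun u hu b hb => hX2 u hu b hb⟩)
    filter_upwards [h5] with ω hω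
    filter_upwards [hω, eventually_ge_atTop 1] with n hn hn1 hno
    refine le_trans ?_ (hn hno)
    exact Real.rpow_le_rpow_of_exponent_le (by exact_mod_cast hn1) (by linarith)
  refine ⟨c / 4, by positivity, KK c, ?_, hlaw, exist_b hEX δ hδ1 (KK c) _ hlaw⟩
  filter_upwards [hK c hc0 hc1] with N hN
  refine le_trans (le_of_eq ?_) hN
  rw [← Set.ncard_coe_finset]
  have hset : KK c ∩ Set.Iio N = (((range N).filter (fun k => k ∈ KK c) : Finset ℕ) : Set ℕ) := by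
    ext k
    simp [and_comm]
  rw [hset]

end Pool.Agent.D0H86.PW
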