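import Pool.Agent.D0H86.PW.Stm2

set_option autoImplicit false

/-!
# Project PW, very sparse form

The set `K` of the perturbed exponents is chosen at random, `k ∈ K` with probability about `k ^ (κ k - 1)`,
`κ k → κ ∈ [0, 1]`: it has `N ^ (κ + o(1))` elements below `N`. This file needs only Mathlib.
-/

namespace Pool.Agent.D0H86.PW

open Finset Filter MeasureTheory ProbabilityTheory Topology

/-- the inverse of the probability of `k ∈ K` -/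
noncomputable def hh (κ : ℕ → ℝ) (k : ℕ) : ℕ := max 1 ⌈(k : ℝ) ^ (1 - κ k)⌉₊

/-- **Module SM** (25 min). The expected number of elements.

Proof: `(hh κ k)⁻¹ ≤ k ^ (κ k - 1) ≤ k ^ (s - 1)` for `k ≥ k₀`, where `s = θ + η / 2`; and
`k ^ (s - 1) = k ^ s / k ≤ N ^ s / k`, `∑_{1 ≤ k < N} 1 / k ≤ 1 + log N` (Mathlib: `harmonic_le_one_add_log`).
So the sum is at most `k₀ + 1 + N ^ s (1 + log N) ≤ N ^ (θ + η)`. -/
def S_SM : Prop := ∀ κ : ℕ → ℝ, (∀ k, 0 ≤ κ k ∧ κ k ≤ 1) → ∀ θ : ℝ, 0 ≤ θ → Tendsto κ atTop (𝓝 θ) →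
  ∀ η : ℝ, 0 < η → ∀ᶠ N : ℕ in atTop, ∑ k ∈ range N, ((hh κ k : ℕ) : ℝ)⁻¹ ≤ (N : ℝ) ^ (θ + η)

open Classical in
/-- **Module SP** (35 min). The random set is sparse.

Proof: for `N = 2 ^ j` the mean of `#{k < N : a k ω = 2 ^ k}` is `∑_{k < N} 1 / H k ≤ N ^ (θ + η / 4)`
(`hM.unif k (2 ^ k)`; sum of indicators), so by Markov it is `≥ N ^ (θ + η / 2)` with probability at most
`2 ^ (-j η / 4)`, which is summable: Borel-Cantelli (`MeasureTheory.ae_eventually_notMem`; example: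
`law` in `Pool/Agent/D0H86/PW/Fin.lean`). For `2 ^ (j-1) ≤ N < 2 ^ j` use monotonicity:
`(2 N) ^ (θ + η / 2) ≤ N ^ (θ + η)`. All `η` at once: `η = 1 / (m + 1)`, `ae_all_iff`. -/
def S_SP : Prop := ∀ (Ω : Type) [MeasurableSpace Ω] (μ : Measure Ω) [IsProbabilityMeasure μ]
  (a : ℕ → Ω → ℕ) (H : ℕ → ℕ), Model μ a H → (∀ k, 1 ≤ H k) → ∀ θ : ℝ, 0 ≤ θ →
  (∀ η : ℝ, 0 < η → ∀ᶠ N : ℕ in atTop, ∑ k ∈ range N, ((H k : ℕ) : ℝ)⁻¹ ≤ (N : ℝ) ^ (θ + η)) →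
  ∀ᵐ ω ∂μ, ∀ η : ℝ, 0 < η → ∀ᶠ N : ℕ in atTop,
    (((range N).filter (fun k => a k ω = 2 ^ k)).card : ℝ) ≤ (N : ℝ) ^ (θ + η)

/-- **Module DG** (15 min). The diagonal.

Proof: choose `t 0 < t 1 < ...` with `Φ j n` for `n ≥ t j`, and `J n = Nat.findGreatest (fun j => t j ≤ n) n`
(`t j ≥ j`). -/
def S_DG : Prop := ∀ Φ : ℕ → ℕ → Prop, (∀ j, ∀ᶠ n in atTop, Φ j n) →
  ∃ J : ℕ → ℕ, Monotone J ∧ Tendsto J atTop atTop ∧ ∀ᶠ n in atTop, Φ (J n) n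

end Pool.Agent.D0H86.PW
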