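import Pool.Agent.D0H86.PW.RowD
import Pool.Agent.D0H86.PW.Stm4
import Pool.Agent.D0H86.PW.Main3

set_option autoImplicit false

/-! Project PW, very sparse form: assembly. -/

namespace Pool.Agent.D0H86.PW

open Finset Filter MeasureTheory ProbabilityTheory Topology

/-- the small exponents -/
noncomputable def ee (j : ℕ) : ℝ := 1 / (100 * ((j : ℝ) + 1))

/-- the exponents of the set `K` -/
noncomputable def ks (κ : ℝ) (j : ℕ) : ℝ := min 1 (κ + 20 * ee j)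

theorem ee_pos (j : ℕ) : 0 < ee j := by
  unfold ee
  positivity

theorem ee_le (j : ℕ) : ee j ≤ 1 / 100 := by
  unfold ee
  rw [div_le_div_iff₀ (by positivity) (by norm_num)]
  have : (0 : ℝ) ≤ j := Nat.cast_nonneg _
  linarith

theorem ee_anti {i j : ℕ} (h : i ≤ j) : ee j ≤ ee i := by
  unfold ee
  rw [div_le_div_iff₀ (by positivity) (by positivity)]
  have : (i : ℝ) ≤ j := by exact_mod_cast h
  linarith

theorem ks_le_one (κ : ℝ) (j : ℕ) : ks κ j ≤ 1 := min_le_left _ _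

theorem ks_ge (κ : ℝ) (hκ : 0 ≤ κ) (j : ℕ) : 20 * ee j ≤ ks κ j := by
  unfold ks
  have := ee_le j
  exact le_min (by linarith) (by linarith)

theorem ks_ge' (κ : ℝ) (hκ : κ ≤ 1) (j : ℕ) : κ ≤ ks κ j := by
  unfold ks
  have := ee_pos j
  exact le_min hκ (by linarith)

theorem ks_nonneg (κ : ℝ) (hκ : 0 ≤ κ) (j : ℕ) : 0 ≤ ks κ j := by
  have := ks_ge κ hκ j
  have := ee_pos j
  linarith

theorem ks_anti (κ : ℝ) {i j : ℕ} (h : i ≤ j) : ks κ j ≤ ks κ i := by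
  unfold ks
  have := ee_anti h
  exact min_le_min le_rfl (by linarith)

theorem ee_tendsto : Tendsto ee atTop (𝓝 0) := by
  have h := (tendsto_one_div_add_atTop_nhds_zero_nat (𝕜 := ℝ)).const_mul (1 / 100 : ℝ)
  rw [mul_zero] at h
  refine h.congr fun j => ?_
  unfold ee
  rw [mul_comm (100 : ℝ), one_div_mul_one_div_rev, mul_comm]

theorem ks_tendsto (κ : ℝ) (hκ : κ ≤ 1) : Tendsto (ks κ) atTop (𝓝 κ) := by
  have h : Tendsto (fun j => min (1 : ℝ) (κ + 20 * ee j)) atTop (𝓝 (min 1 (κ + 20 * 0))) :=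
    tendsto_const_nhds.min (tendsto_const_nhds.add (ee_tendsto.const_mul 20))
  rw [mul_zero, add_zero, min_eq_right hκ] at h
  exact h

/-- the numerical facts -/
def Num (κ : ℝ) (j n : ℕ) : Prop :=
  (∀ (N m : ℕ) (q : ℝ), 0 ≤ q → q ≤ 1 → (n : ℝ) ^ (ks κ j / 2 - 2 * ee j) ≤ q * N →
    (m : ℝ) ≤ (n : ℝ) ^ (ks κ j / 2 - 2 * ee j - ee j) + 1 →
    (2 : ℝ) ^ m * (1 - q / 2) ^ N ≤ 1 / (n : ℝ) ^ 2) ∧
  (∀ (N m : ℕ) (q : ℝ), 0 ≤ q → q ≤ 1 → (n : ℝ) ^ (ks κ j / 2 - 7 * ee j) ≤ q * N →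
    (m : ℝ) ≤ (n : ℝ) ^ (ks κ j / 2 - 7 * ee j - ee j) + 1 →
    (2 : ℝ) ^ m * (1 - q / 2) ^ N ≤ 1 / (n : ℝ) ^ 2) ∧
  4 ≤ (n : ℝ) ^ (ee j) ∧ Real.log n ≤ (n : ℝ) ^ (ks κ j / 2 - 7 * ee j - ee j) ∧ 1 ≤ n

theorem num_all (κ : ℝ) (hκ : 0 ≤ κ) (j : ℕ) : ∀ᶠ n : ℕ in atTop, Num κ j n := by
  have hp := ee_pos j
  have hk := ks_ge κ hκ j
  have h3 : ∀ᶠ n : ℕ in atTop, 4 ≤ (n : ℝ) ^ (ee j) :=
    ((tendsto_rpow_atTop hp).comp tendsto_natCast_atTop_atTop).eventually_ge_atTop _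
  have hs : 0 < ks κ j / 2 - 7 * ee j - ee j := by linarith
  have h4 := (isLittleO_log_rpow_atTop hs).bound (show (0 : ℝ) < 1 by norm_num)
  filter_upwards [num2 (ks κ j / 2 - 2 * ee j) (ee j) hp (by linarith),
    num2 (ks κ j / 2 - 7 * ee j) (ee j) hp (by linarith), h3,
    tendsto_natCast_atTop_atTop.eventually h4, eventually_ge_atTop 1] with n g1 g2 g3 g4 g5
  refine ⟨g1, g2, g3, ?_, g5⟩
  have hn1 : (1 : ℝ) ≤ n := by exact_mod_cast g5
  rw [Real.norm_eq_abs, Real.norm_eq_abs, abs_of_nonneg (Real.log_nonneg hn1),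
    abs_of_nonneg (by positivity), one_mul] at g4
  exact g4

/-- the conclusion -/
def LL (κ : ℝ) (R : (ℕ → ℕ) → ℕ → ℕ) (b : ℕ → ℕ) : Prop :=
  (∀ᶠ n : ℕ in atTop, Odd n → Real.log n ≤ R b n) ∧
  ∀ γ : ℝ, 0 < γ → ∀ᶠ n : ℕ in atTop, Odd n → (n : ℝ) ^ (κ / 2 - γ) ≤ R b n

theorem hh_ge (κ : ℕ → ℝ) (k : ℕ) : 1 ≤ hh κ k := le_max_left _ _

theorem hh_le (κ : ℕ → ℝ) (hκ : ∀ k, 0 ≤ κ k ∧ κ k ≤ 1) (k : ℕ) : hh κ k ≤ 2 ^ k := by
  unfold hh
  apply max_le Nat.one_le_two_pow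
  apply Nat.ceil_le.2
  rcases Nat.eq_zero_or_pos k with h | h
  · rw [h]
    push_cast
    exact Real.rpow_le_one le_rfl zero_le_one (by linarith [(hκ 0).2])
  · have h1 : (1 : ℝ) ≤ k := by exact_mod_cast h
    calc (k : ℝ) ^ (1 - κ k) ≤ (k : ℝ) ^ (1 : ℝ) :=
          Real.rpow_le_rpow_of_exponent_le h1 (by linarith [(hκ k).1])
      _ = k := Real.rpow_one _
      _ ≤ ((2 ^ k : ℕ) : ℝ) := by exact_mod_cast Nat.lt_two_pow_self.le

theorem hh_up (κ : ℕ → ℝ) (n u : ℕ) (hu : 1 ≤ u) (hn : 1 ≤ n)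
    (h2 : u ^ 2 ≤ 2 * n) (s : ℝ) (hs : s ≤ κ u) (hs1 : s ≤ 1) (hs0 : 0 ≤ s) :
    ((hh κ u : ℕ) : ℝ) ≤ 4 * (n : ℝ) ^ ((1 - s) / 2) := by
  have hu1 : (1 : ℝ) ≤ u := by exact_mod_cast hu
  have hn1 : (1 : ℝ) ≤ n := by exact_mod_cast hn
  have h3 : (u : ℝ) ^ (1 - κ u) ≤ (u : ℝ) ^ (1 - s) :=
    Real.rpow_le_rpow_of_exponent_le hu1 (by linarith)
  have h4 : (1 : ℝ) ≤ (u : ℝ) ^ (1 - s) := Real.one_le_rpow hu1 (by linarith)
  have h5 : ((hh κ u : ℕ) : ℝ) ≤ 2 * (u : ℝ) ^ (1 - s) := by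
    unfold hh
    rw [Nat.cast_max]
    apply max_le
    · push_cast
      linarith
    · have := (Nat.ceil_lt_add_one (a := (u : ℝ) ^ (1 - κ u)) (by positivity)).le
      linarith
  have h6 : (u : ℝ) ^ (1 - s) ≤ 2 * (n : ℝ) ^ ((1 - s) / 2) := by
    have h7 : (u : ℝ) ^ (1 - s) = ((u : ℝ) ^ 2) ^ ((1 - s) / 2) := by
      rw [← Real.rpow_natCast, ← Real.rpow_mul (by linarith)]
      congr 1
      push_cast
      ring
    have h8 : ((u : ℝ) ^ 2) ≤ 2 * n := by exact_mod_cast h2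
    have h9 : (2 : ℝ) ^ ((1 - s) / 2) ≤ 2 := by
      calc (2 : ℝ) ^ ((1 - s) / 2) ≤ (2 : ℝ) ^ (1 : ℝ) :=
            Real.rpow_le_rpow_of_exponent_le (by norm_num) (by linarith)
        _ = 2 := Real.rpow_one _
    rw [h7]
    calc ((u : ℝ) ^ 2) ^ ((1 - s) / 2) ≤ (2 * (n : ℝ)) ^ ((1 - s) / 2) :=
          Real.rpow_le_rpow (by positivity) h8 (by linarith)
      _ = (2 : ℝ) ^ ((1 - s) / 2) * (n : ℝ) ^ ((1 - s) / 2) := Real.mul_rpow (by norm_num) (by linarith)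
      _ ≤ 2 * (n : ℝ) ^ ((1 - s) / 2) := by gcongr
  linarith

/-- the theorem for general trials -/
theorem main4 (hPE : S_PE) (hSP : S_SP) (hSM : S_SM) (hDG : S_DG) (hEX : S_EX) (δ : ℝ) (hδ1 : δ < 1)
    (Suc : ℕ → ℕ → (ℕ → ℕ) → Prop) (hloc : ∀ n u b b', (∀ k ≤ u, b k = b' k) → Suc n u b → Suc n u b')
    (R : (ℕ → ℕ) → ℕ → ℕ) (hR : ∀ b n (F : Finset ℕ), (∀ u ∈ F, Suc n u b) → F.card ≤ R b n)
    (hD : ∀ ε : ℝ, 0 < ε → ε < 1 / 4 → ∀ᶠ n : ℕ in atTop, Odd n → ∃ X : Finset ℕ, Lev δ Suc ε n X)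
    (κ : ℝ) (hκ0 : 0 ≤ κ) (hκ1 : κ ≤ 1) : ∃ K : Set ℕ,
      (∀ η : ℝ, 0 < η → ∀ᶠ N : ℕ in atTop, ((K ∩ Set.Iio N).ncard : ℝ) ≤ (N : ℝ) ^ (κ + η)) ∧
      (∀ H : ℕ → ℕ, (∀ k, H k ≤ 2 ^ k) → (∀ᶠ k : ℕ in atTop, k ∈ K → (2 : ℝ) ^ (δ * k) ≤ H k) →
        ∀ (Ω : Type) [MeasurableSpace Ω] (μ : Measure Ω) [IsProbabilityMeasure μ] (a : ℕ → Ω → ℕ),
          Model μ a H → ∀ᵐ ω ∂μ, LL κ R (fun k => a k ω)) ∧
      ∃ b : ℕ → ℕ, (∀ k, k ∉ K → b k = 2 ^ k) ∧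
        (∀ k, 2 ^ k ≤ b k ∧ (b k : ℝ) ≤ 2 ^ k + (2 : ℝ) ^ (δ * k)) ∧ LL κ R b := by
  classical
  obtain ⟨J, hJm, hJt, hJ⟩ := hDG (fun j n => (Odd n → ∃ X : Finset ℕ, Lev δ Suc (ee j) n X) ∧ Num κ j n)
    (fun j => (hD (ee j) (ee_pos j) ((ee_le j).trans_lt (by norm_num))).and (num_all κ hκ0 j))
  -- the levels
  set X : ℕ → Finset ℕ := fun n => if h : ∃ X : Finset ℕ, Lev δ Suc (ee (J n)) n X then h.choose else ∅
    with hXdef
  have hX : ∀ᶠ n : ℕ in atTop, Odd n → Lev δ Suc (ee (J n)) n (X n) := by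
    filter_upwards [hJ] with n hn hodd
    have h := hn.1 hodd
    rw [hXdef]
    simp only [dif_pos h]
    exact h.choose_spec
  -- the random set
  set kk : ℕ → ℝ := fun k => ks κ (J k) with hkk
  have hkk01 : ∀ k, 0 ≤ kk k ∧ kk k ≤ 1 := fun k => ⟨ks_nonneg κ hκ0 _, ks_le_one κ _⟩
  have hkt : Tendsto kk atTop (𝓝 κ) := (ks_tendsto κ hκ1).comp hJt
  obtain ⟨ν, hν, hMν⟩ := hEX (hh kk) (hh_ge kk)
  have hsp := hSP _ ν (fun k ω => ω k) (hh kk) hMν (hh_ge kk) κ hκ0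
    (hSM kk hkk01 κ hκ0 hkt)
  have hhit := law3 hPE hMν (fun _ u b => b u = 2 ^ u)
    (fun n u b b' h h1 => by
      show b' u = 2 ^ u
      rw [← h u le_rfl]
      exact h1)
    X (fun n => (n : ℝ) ^ (-((1 - ks κ (J n)) / 2)) / 4)
    (fun n => ⌈(n : ℝ) ^ (ks κ (J n) / 2 - 2 * ee (J n) - ee (J n))⌉₊) (by
      filter_upwards [hJ, hX] with n hn hXn hodd
      obtain ⟨-, g1, -, g3, -, g5⟩ := hn
      obtain ⟨hX1, hX2⟩ := hXn hodd
      have hn1 : (1 : ℝ) ≤ n := by exact_mod_cast g5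
      have hn0 : (0 : ℝ) < n := by linarith
      have hs1 := ks_le_one κ (J n)
      have hs0 := ks_nonneg κ hκ0 (J n)
      have hp := ee_pos (J n)
      have hq0 : 0 < (n : ℝ) ^ (-((1 - ks κ (J n)) / 2)) := by positivity
      have hq1 : (n : ℝ) ^ (-((1 - ks κ (J n)) / 2)) ≤ 1 :=
        Real.rpow_le_one_of_one_le_of_nonpos hn1 (by linarith)
      refine ⟨by positivity, by linarith, ?_, fun u hu b hb => ?_⟩
      · apply g1 _ _ _ (by positivity) (by linarith)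
        · have h5 : (n : ℝ) ^ (ks κ (J n) / 2 - 2 * ee (J n)) * (n : ℝ) ^ ee (J n) =
              (n : ℝ) ^ (-((1 - ks κ (J n)) / 2)) * (n : ℝ) ^ (1 / 2 - ee (J n)) := by
            rw [← Real.rpow_add hn0, ← Real.rpow_add hn0]
            congr 1
            ring
          have h6 : (n : ℝ) ^ (-((1 - ks κ (J n)) / 2)) * (n : ℝ) ^ (1 / 2 - ee (J n)) ≤
              (n : ℝ) ^ (-((1 - ks κ (J n)) / 2)) * (X n).card :=
            mul_le_mul_of_nonneg_left hX1 hq0.le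
          have h7 : (n : ℝ) ^ (ks κ (J n) / 2 - 2 * ee (J n)) * 4 ≤
              (n : ℝ) ^ (ks κ (J n) / 2 - 2 * ee (J n)) * (n : ℝ) ^ ee (J n) :=
            mul_le_mul_of_nonneg_left g3 (by positivity)
          linarith
        · exact (Nat.ceil_lt_add_one (by positivity)).le
      · obtain ⟨hun, hul, hu2, -⟩ := hX2 u hu
        have hu1 : 1 ≤ u := by
          have h5 : (1 : ℝ) ≤ (n : ℝ) ^ (1 / 4 : ℝ) := Real.one_le_rpow hn1 (by norm_num)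
          exact_mod_cast h5.trans hul
        have h6 := hh_up kk n u hu1 g5 hu2 (ks κ (J n)) (ks_anti κ (hJm hun)) hs1 hs0
        have h7 : (n : ℝ) ^ (-((1 - ks κ (J n)) / 2)) * (n : ℝ) ^ ((1 - ks κ (J n)) / 2) = 1 := by
          rw [← Real.rpow_add hn0, neg_add_cancel, Real.rpow_zero]
        have h8 : (n : ℝ) ^ (-((1 - ks κ (J n)) / 2)) / 4 * (hh kk u : ℕ) ≤ 1 := by
          have h9 := mul_le_mul_of_nonneg_left h6 hq0.le
          nlinarith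
        refine h8.trans ?_
        have h9 : ∀ (I : DecidablePred (fun T : ℕ => Function.update b u T u = 2 ^ u)),
            (1 : ℕ) ≤ (@Finset.filter ℕ (fun T => Function.update b u T u = 2 ^ u) I
              (Ico (2 ^ u) (2 ^ u + hh kk u))).card := by
          intro I
          apply card_pos.2
          refine ⟨2 ^ u, ?_⟩
          rw [mem_filter, mem_Ico, Function.update_self]
          have := hh_ge kk u
          exact ⟨⟨le_rfl, by omega⟩, rfl⟩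
        exact Nat.one_le_cast.2 (h9 _))
  obtain ⟨ω₀, hω1, hω2⟩ := (hsp.and hhit).exists
  set K : Set ℕ := {k | ω₀ k = 2 ^ k} with hK
  have hlaw : ∀ H : ℕ → ℕ, (∀ k, H k ≤ 2 ^ k) → (∀ᶠ k : ℕ in atTop, k ∈ K → (2 : ℝ) ^ (δ * k) ≤ H k) →
      ∀ (Ω : Type) [MeasurableSpace Ω] (μ : Measure Ω) [IsProbabilityMeasure μ] (a : ℕ → Ω → ℕ),
        Model μ a H → ∀ᵐ ω ∂μ, LL κ R (fun k => a k ω) := by
    intro H hH hHl Ω _ μ _ a hM
    obtain ⟨k0, hk0⟩ := eventually_atTop.1 hHl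
    have h1 := law3 hPE hM Suc hloc (fun n => (X n).filter (fun u => u ∈ K))
      (fun n => (n : ℝ) ^ (-(4 * ee (J n))))
      (fun n => ⌈(n : ℝ) ^ (ks κ (J n) / 2 - 7 * ee (J n) - ee (J n))⌉₊) (by
        filter_upwards [hJ, hX, hω2, eventually_ge_atTop (k0 ^ 4)] with n hn hXn hYn hnk hodd
        obtain ⟨-, -, g2, -, -, g5⟩ := hn
        obtain ⟨hX1, hX2⟩ := hXn hodd
        have hY := hYn hodd
        have hn1 : (1 : ℝ) ≤ n := by exact_mod_cast g5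
        have hn0 : (0 : ℝ) < n := by linarith
        have hp := ee_pos (J n)
        have hq0 : 0 < (n : ℝ) ^ (-(4 * ee (J n))) := by positivity
        have hq1 : (n : ℝ) ^ (-(4 * ee (J n))) ≤ 1 :=
          Real.rpow_le_one_of_one_le_of_nonpos hn1 (by linarith)
        refine ⟨hq0.le, hq1, ?_, fun u hu b hb => ?_⟩
        · apply g2 _ _ _ hq0.le hq1
          · have h5 : (n : ℝ) ^ (ks κ (J n) / 2 - 7 * ee (J n)) =
                (n : ℝ) ^ (-(4 * ee (J n))) * (n : ℝ) ^ (ks κ (J n) / 2 - 2 * ee (J n) - ee (J n)) := by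
              rw [← Real.rpow_add hn0]
              congr 1
              ring
            rw [h5]
            apply mul_le_mul_of_nonneg_left _ hq0.le
            refine (Nat.le_ceil _).trans ?_
            have hY' : ⌈(n : ℝ) ^ (ks κ (J n) / 2 - 2 * ee (J n) - ee (J n))⌉₊ ≤
                ((X n).filter (fun u => u ∈ K)).card := by
              convert hY
              exact Iff.rfl
            exact_mod_cast hY'
          · exact (Nat.ceil_lt_add_one (by positivity)).le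
        · rw [mem_filter] at hu
          obtain ⟨hun, hul, hu2, hLev⟩ := hX2 u hu.1
          have hku : k0 ≤ u := pow_low hul _ hnk
          exact hLev H hH (hk0 u hku hu.2) b hb)
    filter_upwards [h1] with ω hω
    have h2 : ∀ᶠ n : ℕ in atTop, Odd n →
        (n : ℝ) ^ (ks κ (J n) / 2 - 7 * ee (J n) - ee (J n)) ≤ R (fun k => a k ω) n := by
      filter_upwards [hω] with n hn hodd
      have h3 := hn hodd
      have h4 := hR (fun k => a k ω) n (((X n).filter (fun u => u ∈ K)).filter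
        (fun u => Suc n u (fun k => a k ω))) (fun u hu => (mem_filter.1 hu).2)
      refine (Nat.le_ceil _).trans ?_
      exact_mod_cast h3.trans h4
    refine ⟨?_, fun γ hγ => ?_⟩
    · filter_upwards [h2, hJ] with n hn hJn hodd
      exact hJn.2.2.2.2.1.trans (hn hodd)
    · have h3 : ∀ᶠ n : ℕ in atTop, ee (J n) < γ / 8 :=
        (ee_tendsto.comp hJt).eventually_lt_const (by positivity)
      filter_upwards [h2, h3, eventually_ge_atTop 1] with n hn hJn hn1 hodd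
      refine le_trans ?_ (hn hodd)
      apply Real.rpow_le_rpow_of_exponent_le (by exact_mod_cast hn1)
      have := ks_ge' κ hκ1 (J n)
      linarith
  refine ⟨K, fun η hη => ?_, hlaw, exist_b hEX δ hδ1 K _ hlaw⟩
  filter_upwards [hω1 η hη] with N hN
  refine le_trans (le_of_eq ?_) hN
  rw [← Set.ncard_coe_finset]
  have hset : K ∩ Set.Iio N = (((range N).filter (fun k => ω₀ k = 2 ^ k) : Finset ℕ) : Set ℕ) := by
    ext k
    simp [hK, and_comm]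
  rw [hset]

end Pool.Agent.D0H86.PW
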