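import Pool.Agent.D0H86.PW.Stm3
import Pool.Agent.TH696.FA.OrthCount

set_option autoImplicit false

/-! Project PW, module O1. -/

namespace Pool.Agent.D0H86.PW

open Finset Filter Pool.Agent.TH696.FA Pool.Agent.W65.FS

/-- sums of two squares modulo `(2 s) ^ 2 + 1` -/
theorem twosq (s M n : ℤ) (hM : M = (2 * s) ^ 2 + 1) : ∃ a b : ℤ, M ∣ a ^ 2 + b ^ 2 - n ∧
    ∀ l : ℤ, Prime l → l ∣ M → ¬ (l ∣ a ∧ l ∣ b) := by
  refine ⟨(n + 1) * (-2 * s ^ 2), 2 * s * (n - 1) * (-2 * s ^ 2), ?_, ?_⟩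
  · refine ⟨(-2 + M) * n + (-2 * s ^ 2) ^ 2 * (n - 1) ^ 2, ?_⟩
    rw [hM]
    ring
  · rintro l hl hlM ⟨h1, h2⟩
    have e : (1 : ℤ) = (n + 1) * (-2 * s ^ 2) + (2 * s) * (2 * s * (n - 1) * (-2 * s ^ 2)) +
        M * (1 - (-2 * s ^ 2) * (n - 1)) := by
      rw [hM]
      ring
    have h3 : l ∣ 1 := by
      rw [e]
      exact dvd_add (dvd_add h1 (h2.mul_left _)) (hlM.mul_right _)
    exact hl.not_isUnit (isUnit_of_dvd_one h3)

/-- four squares modulo eight -/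
theorem mod8 (n : ℕ) (hn : Odd n) : ∃ r0 r1 r2 r3 : ℤ, 8 ∣ r0 ^ 2 + r1 ^ 2 + r2 ^ 2 + r3 ^ 2 - (n : ℤ) ∧
    ¬ 2 ∣ r0 ∧ 2 ∣ r3 := by
  have h1 : n % 8 = 1 ∨ n % 8 = 3 ∨ n % 8 = 5 ∨ n % 8 = 7 := by
    rcases hn with ⟨k, rfl⟩
    omega
  rcases h1 with h | h | h | h
  · exact ⟨1, 0, 0, 0, by omega, by omega, by omega⟩
  · exact ⟨1, 1, 1, 0, by omega, by omega, by omega⟩
  · exact ⟨1, 2, 0, 0, by omega, by omega, by omega⟩
  · exact ⟨1, 1, 1, 2, by omega, by omega, by omega⟩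

theorem M1_form (j : ℕ) (hj : 1 ≤ j) : ((M1 j : ℕ) : ℤ) = (2 * 2 ^ (j - 1)) ^ 2 + 1 := by
  unfold M1
  obtain ⟨i, rfl⟩ : ∃ i, j = i + 1 := ⟨j - 1, by omega⟩
  push_cast
  ring

theorem M2_form (j : ℕ) : ((M2 j : ℕ) : ℤ) = (2 * (M1 j : ℤ)) ^ 2 + 1 := by
  unfold M2
  push_cast
  ring

theorem cop8 (s M : ℤ) (hM : M = (2 * s) ^ 2 + 1) : IsCoprime (8 : ℤ) M := by
  have h1 : IsCoprime (2 : ℤ) M := ⟨-(2 * s ^ 2), 1, by rw [hM]; ring⟩
  have h2 := h1.pow_left (m := 3)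
  norm_num at h2
  exact h2

theorem cop12 (j : ℕ) : IsCoprime ((M1 j : ℕ) : ℤ) ((M2 j : ℕ) : ℤ) := by
  rw [M2_form]
  exact ⟨-(4 * (M1 j : ℤ)), 1, by ring⟩

/-- the class of the first form -/
theorem class1 (n j : ℕ) (hn : Odd n) (hj : 1 ≤ j) : ∃ u : Fin 4 → ℤ, GoodG n (4 * M1 j * M2 j) u ∧
    (M1 j : ℤ) ∣ u 0 ∧ (M1 j : ℤ) ∣ u 1 ∧ (M2 j : ℤ) ∣ u 2 ∧ 2 ∣ u 3 := by
  obtain ⟨r0, r1, r2, r3, hr, hr0, hr3⟩ := mod8 n hn
  obtain ⟨a, b, hab, hab'⟩ := twosq _ _ (n : ℤ) (M1_form j hj)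
  obtain ⟨c, d, hcd, hcd'⟩ := twosq _ _ (n : ℤ) (M2_form j)
  have c1 := cop8 _ _ (M1_form j hj)
  have c2 := cop8 _ _ (M2_form j)
  have c12 := cop12 j
  obtain ⟨x0, x08, x01, x02⟩ := crt3 _ _ _ c1 c2 c12 r0 0 c
  obtain ⟨x1, x18, x11, x12⟩ := crt3 _ _ _ c1 c2 c12 r1 0 d
  obtain ⟨x2, x28, x21, x22⟩ := crt3 _ _ _ c1 c2 c12 r2 a 0
  obtain ⟨x3, x38, x31, x32⟩ := crt3 _ _ _ c1 c2 c12 r3 b 0
  rw [sub_zero] at x01 x11 x22 x32
  refine ⟨![x0, x1, x2, x3], ⟨?_, ?_⟩, x01, x11, x22, ?_⟩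
  · have hsum : (∑ i, (![x0, x1, x2, x3] : Fin 4 → ℤ) i ^ 2) - (n : ℤ) =
        x0 ^ 2 + x1 ^ 2 + x2 ^ 2 + x3 ^ 2 - n := by
      rw [Fin.sum_univ_four]
      rfl
    rw [hsum]
    have e8 : (8 : ℤ) ∣ x0 ^ 2 + x1 ^ 2 + x2 ^ 2 + x3 ^ 2 - n := by
      have e : x0 ^ 2 + x1 ^ 2 + x2 ^ 2 + x3 ^ 2 - (n : ℤ) = (x0 - r0) * (x0 + r0) + (x1 - r1) * (x1 + r1) +
        (x2 - r2) * (x2 + r2) + (x3 - r3) * (x3 + r3) + (r0 ^ 2 + r1 ^ 2 + r2 ^ 2 + r3 ^ 2 - n) := by ring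
      rw [e]
      exact dvd_add (dvd_add (dvd_add (dvd_add (x08.mul_right _) (x18.mul_right _)) (x28.mul_right _))
        (x38.mul_right _)) hr
    have e1 : (M1 j : ℤ) ∣ x0 ^ 2 + x1 ^ 2 + x2 ^ 2 + x3 ^ 2 - n := by
      have e : x0 ^ 2 + x1 ^ 2 + x2 ^ 2 + x3 ^ 2 - (n : ℤ) = x0 * x0 + x1 * x1 +
        (x2 - a) * (x2 + a) + (x3 - b) * (x3 + b) + (a ^ 2 + b ^ 2 - n) := by ring
      rw [e]
      exact dvd_add (dvd_add (dvd_add (dvd_add (x01.mul_right _) (x11.mul_right _)) (x21.mul_right _))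
        (x31.mul_right _)) hab
    have e2 : (M2 j : ℤ) ∣ x0 ^ 2 + x1 ^ 2 + x2 ^ 2 + x3 ^ 2 - n := by
      have e : x0 ^ 2 + x1 ^ 2 + x2 ^ 2 + x3 ^ 2 - (n : ℤ) = (x0 - c) * (x0 + c) + (x1 - d) * (x1 + d) +
        x2 * x2 + x3 * x3 + (c ^ 2 + d ^ 2 - n) := by ring
      rw [e]
      exact dvd_add (dvd_add (dvd_add (dvd_add (x02.mul_right _) (x12.mul_right _)) (x22.mul_right _))
        (x32.mul_right _)) hcd
    have e : (2 * ((4 * M1 j * M2 j : ℕ) : ℤ)) = 8 * (M1 j : ℤ) * (M2 j : ℤ) := by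
      push_cast
      ring
    rw [e]
    exact IsCoprime.mul_dvd (IsCoprime.mul_left c2 c12) (IsCoprime.mul_dvd c1 e8 e1) e2
  · intro l hl hlD
    have hlp : Prime (l : ℤ) := Nat.prime_iff_prime_int.1 hl
    rcases (Nat.Prime.dvd_mul hl).1 hlD with h6 | h6
    · rcases (Nat.Prime.dvd_mul hl).1 h6 with h7 | h7
      · have h8 : l = 2 := by
          have : l ∣ 2 ^ 2 := by simpa using h7
          exact (Nat.prime_dvd_prime_iff_eq hl Nat.prime_two).1 (hl.dvd_of_dvd_pow this)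
        refine ⟨0, ?_⟩
        rw [h8]
        show ¬ ((2 : ℕ) : ℤ) ∣ x0
        intro h9
        apply hr0
        have e : r0 = x0 - (x0 - r0) := by ring
        rw [e]
        exact dvd_sub (by exact_mod_cast h9) ((by norm_num : (2 : ℤ) ∣ 8).trans x08)
      · have h7' : (l : ℤ) ∣ (M1 j : ℤ) := by exact_mod_cast h7
        by_contra hall
        push Not at hall
        apply hab' l hlp h7'
        constructor
        · have e : a = x2 - (x2 - a) := by ring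
          rw [e]; exact dvd_sub (hall 2) (h7'.trans x21)
        · have e : b = x3 - (x3 - b) := by ring
          rw [e]; exact dvd_sub (hall 3) (h7'.trans x31)
    · have h7' : (l : ℤ) ∣ (M2 j : ℤ) := by exact_mod_cast h6
      by_contra hall
      push Not at hall
      apply hcd' l hlp h7'
      constructor
      · have e : c = x0 - (x0 - c) := by ring
        rw [e]; exact dvd_sub (hall 0) (h7'.trans x02)
      · have e : d = x1 - (x1 - d) := by ring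
        rw [e]; exact dvd_sub (hall 1) (h7'.trans x12)
  · show (2 : ℤ) ∣ x3
    have e : x3 = (x3 - r3) + r3 := by ring
    rw [e]
    exact dvd_add ((by norm_num : (2 : ℤ) ∣ 8).trans x38) hr3

/-- the choice of the modulus -/
theorem choose_j (δ : ℝ) (hδ : 0 < δ) : ∃ c : ℝ, 0 < c ∧ c ≤ 1 ∧ ∀ᶠ n : ℕ in atTop, ∃ j : ℕ, 1 ≤ j ∧
    (n : ℝ) ^ c ≤ 4 ^ j ∧ ((4 * M1 j * M2 j : ℕ) : ℝ) ≤ (n : ℝ) ^ δ ∧ ((4 * M1 j : ℕ) : ℝ) ≤ (n : ℝ) ^ δ := by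
  set c : ℝ := min (δ / 4) 1 with hc
  have hc0 : 0 < c := lt_min (by positivity) one_pos
  have hcδ : 4 * c ≤ δ := by
    have := min_le_left (δ / 4) 1
    linarith
  refine ⟨c, hc0, min_le_right _ _, ?_⟩
  have h2 : ∀ᶠ n : ℕ in atTop, 10000 ≤ (n : ℝ) ^ c :=
    ((tendsto_rpow_atTop hc0).comp tendsto_natCast_atTop_atTop).eventually_ge_atTop _
  filter_upwards [h2, eventually_ge_atTop 1] with n hn hn1
  have hn1' : (1 : ℝ) ≤ n := by exact_mod_cast hn1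
  have hn0 : (0 : ℝ) < n := by linarith
  set Y : ℝ := (n : ℝ) ^ c with hY
  -- the least j with Y ≤ 4 ^ j
  have hex : ∃ j : ℕ, Y ≤ (4 : ℝ) ^ j := by
    obtain ⟨j, hj⟩ := pow_unbounded_of_one_lt Y (by norm_num : (1 : ℝ) < 4)
    exact ⟨j, hj.le⟩
  classical
  set j := Nat.find hex with hj
  have hj1 : Y ≤ (4 : ℝ) ^ j := Nat.find_spec hex
  have hjpos : 1 ≤ j := by
    by_contra h
    have h0 : j = 0 := by omega
    rw [h0] at hj1
    norm_num at hj1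
    linarith
  have hj2 : (4 : ℝ) ^ j ≤ 4 * Y := by
    have h3 : ¬ Y ≤ (4 : ℝ) ^ (j - 1) := Nat.find_min hex (by omega)
    push Not at h3
    have h4 : (4 : ℝ) ^ j = 4 * (4 : ℝ) ^ (j - 1) := by
      rw [← pow_succ']
      congr 1
      omega
    linarith
  have h41 : (1 : ℝ) ≤ 4 ^ j := one_le_pow₀ (by norm_num)
  have hM1 : ((M1 j : ℕ) : ℝ) ≤ 2 * 4 ^ j := by
    unfold M1
    push_cast
    have : ((2 : ℝ) ^ j) ^ 2 = 4 ^ j := by
      rw [← pow_mul, mul_comm, pow_mul]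
      norm_num
    rw [this]
    linarith
  have hM10 : (0 : ℝ) ≤ (M1 j : ℕ) := Nat.cast_nonneg _
  have hM2 : ((M2 j : ℕ) : ℝ) ≤ 17 * (4 ^ j) ^ 2 := by
    unfold M2
    push_cast
    nlinarith
  have hY4 : Y ^ 4 ≤ (n : ℝ) ^ δ := by
    rw [hY, ← Real.rpow_natCast, ← Real.rpow_mul hn0.le]
    apply Real.rpow_le_rpow_of_exponent_le hn1'
    push_cast
    linarith
  have hY0 : (0 : ℝ) < Y := by linarith
  have hD : ((4 * M1 j * M2 j : ℕ) : ℝ) ≤ 136 * 64 * Y ^ 3 := by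
    push_cast
    calc 4 * ((M1 j : ℕ) : ℝ) * ((M2 j : ℕ) : ℝ) ≤ 4 * (2 * 4 ^ j) * (17 * (4 ^ j) ^ 2) := by gcongr
      _ = 136 * ((4 : ℝ) ^ j) ^ 3 := by ring
      _ ≤ 136 * (4 * Y) ^ 3 := by gcongr
      _ = _ := by ring
  have hD' : (136 * 64 * Y ^ 3 : ℝ) ≤ Y ^ 4 := by
    have : Y ^ 4 = Y * Y ^ 3 := by ring
    rw [this]
    have h3 : (0 : ℝ) < Y ^ 3 := by positivity
    nlinarith
  refine ⟨j, hjpos, hj1, hD.trans (hD'.trans hY4), le_trans ?_ (hD.trans (hD'.trans hY4))⟩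
  have h5 : 4 * M1 j ≤ 4 * M1 j * M2 j := by
    apply Nat.le_mul_of_pos_right
    unfold M2
    omega
  exact_mod_cast h5

theorem mem_KK {c : ℝ} (hc : 0 ≤ c) {n k j : ℕ} (hj : 1 ≤ j) (hn : (n : ℝ) ^ c ≤ 4 ^ j) (hk : k ≤ n)
    (hd : M1 j ∣ k ∨ M2 j ∣ k) : k ∈ KK c := by
  refine ⟨j, hj, le_trans ?_ hn, hd⟩
  exact Real.rpow_le_rpow (Nat.cast_nonneg _) (by exact_mod_cast hk) hc

theorem t_O1 : S_O1 := by
  classical
  intro ε hε
  obtain ⟨δ, hδ, n1, h⟩ := orth_count ε hε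
  obtain ⟨c, hc0, hc1, hj⟩ := choose_j δ hδ
  refine ⟨c, hc0, hc1, ?_⟩
  filter_upwards [hj, eventually_ge_atTop n1] with n hnj hn1 hno
  obtain ⟨j, hj1, hjn, hD, -⟩ := hnj
  obtain ⟨u, hu, hu0, hu1, hu2, hu3⟩ := class1 n j hno hj1
  have hM1 : 0 < M1 j := by unfold M1; omega
  have hM2 : 0 < M2 j := by unfold M2; omega
  set D := 4 * M1 j * M2 j with hDdef
  have hD0 : 0 < D := by positivity
  have h4D : 4 ∣ D := (Dvd.intro (M1 j) rfl).mul_right _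
  have hcount := h n D hn1 hno hD0 h4D hD u hu
  have d1 : ((M1 j : ℕ) : ℤ) ∣ (D : ℤ) := by
    rw [hDdef]
    exact_mod_cast (Dvd.intro_left 4 rfl).mul_right (M2 j)
  have d2 : ((M2 j : ℕ) : ℤ) ∣ (D : ℤ) := by
    rw [hDdef]
    exact_mod_cast Dvd.intro_left (4 * M1 j) rfl
  have d4 : (2 : ℤ) ∣ (D : ℤ) := by
    have : 2 ∣ D := (by norm_num : 2 ∣ 4).trans h4D
    exact_mod_cast this
  have hcg : ∀ X ∈ orth n D u, (M1 j : ℤ) ∣ X 0 ∧ (M1 j : ℤ) ∣ X 1 ∧ (M2 j : ℤ) ∣ X 2 ∧ 2 ∣ X 3 := by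
    intro X hX
    rw [mem_orth] at hX
    have aux : ∀ (m : ℤ) (i : Fin 4), m ∣ (D : ℤ) → m ∣ u i → m ∣ X i := by
      intro m i hm hi
      have e : X i = (X i - u i) + u i := by ring
      rw [e]
      exact dvd_add (hm.trans (hX.1.2 i)) hi
    exact ⟨aux _ 0 d1 hu0, aux _ 1 d1 hu1, aux _ 2 d2 hu2, aux _ 3 d4 hu3⟩
  refine ⟨(orth n D u).image (fun X => ((X 0).toNat, (X 1).toNat, (X 2).toNat, (X 3).toNat / 2)), ?_, ?_⟩
  · rw [Finset.card_image_of_injOn]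
    · exact hcount
    · intro X hX Y hY hXY
      rw [Finset.mem_coe] at hX hY
      have gX := hcg X hX
      have gY := hcg Y hY
      rw [mem_orth] at hX hY
      simp only [Prod.mk.injEq] at hXY
      obtain ⟨e0, e1, e2, e3⟩ := hXY
      have g := hX.2
      have g' := hY.2
      funext i
      fin_cases i
      · have a1 := g 0; have a2 := g' 0
        show X 0 = Y 0
        omega
      · have a1 := g 1; have a2 := g' 1
        show X 1 = Y 1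
        omega
      · have a1 := g 2; have a2 := g' 2
        show X 2 = Y 2
        omega
      · have a1 := g 3; have a2 := g' 3
        have a3 := gX.2.2.2
        have a4 := gY.2.2.2
        show X 3 = Y 3
        omega
  · intro x y z w hxyzw
    rw [Finset.mem_image] at hxyzw
    obtain ⟨X, hX, hXe⟩ := hxyzw
    have gX := hcg X hX
    rw [mem_orth] at hX
    obtain ⟨⟨hsum, hcong⟩, hpos⟩ := hX
    simp only [Prod.mk.injEq] at hXe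
    obtain ⟨e0, e1, e2, e3⟩ := hXe
    obtain ⟨g0, g1, g2, g3⟩ := gX
    have x0 : X 0 = x := by have := hpos 0; omega
    have x1 : X 1 = y := by have := hpos 1; omega
    have x2 : X 2 = z := by have := hpos 2; omega
    have x3 : X 3 = 2 * w := by have := hpos 3; omega
    rw [Fin.sum_univ_four, x0, x1, x2, x3] at hsum
    rw [x0] at g0
    rw [x1] at g1
    rw [x2] at g2
    have hn : n = x ^ 2 + y ^ 2 + z ^ 2 + 4 * w ^ 2 := by
      have : (n : ℤ) = x ^ 2 + y ^ 2 + z ^ 2 + 4 * w ^ 2 := by rw [← hsum]; ring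
      exact_mod_cast this
    have hle : ∀ k : ℕ, k ^ 2 ≤ n → k ≤ n := by
      intro k hk
      rcases Nat.eq_zero_or_pos k with h0 | h0
      · omega
      · nlinarith
    refine ⟨hn, ?_, ?_, ?_⟩
    · exact mem_KK hc0.le hj1 hjn (hle x (by omega)) (Or.inl (by exact_mod_cast g0))
    · exact mem_KK hc0.le hj1 hjn (hle y (by omega)) (Or.inl (by exact_mod_cast g1))
    · exact mem_KK hc0.le hj1 hjn (hle z (by omega)) (Or.inr (by exact_mod_cast g2))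

end Pool.Agent.D0H86.PW
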