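import Pool.Agent.D0H86.PW.O1

set_option autoImplicit false

/-! Project PW, module O2. -/

namespace Pool.Agent.D0H86.PW

open Finset Filter Pool.Agent.TH696.FA Pool.Agent.W65.FS

/-- the class of the second form -/
theorem class2 (n j : ℕ) (hn : Odd n) (hj : 1 ≤ j) : ∃ u : Fin 4 → ℤ, GoodG n (4 * M1 j) u ∧
    (M1 j : ℤ) ∣ u 0 + u 1 ∧ (M1 j : ℤ) ∣ u 2 + u 3 := by
  obtain ⟨r0, r1, r2, r3, hr, hr0, hr3⟩ := mod8 n hn
  have hf := M1_form j hj
  obtain ⟨g, hg⟩ : ∃ g : ℤ, (M1 j : ℤ) ∣ 2 * g - n := by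
    refine ⟨-2 * (2 ^ (j - 1)) ^ 2 * n, -n, ?_⟩
    rw [hf]
    ring
  obtain ⟨a, b, hab, hab'⟩ := twosq _ _ g hf
  have c1 := cop8 _ _ hf
  obtain ⟨x0, x08, x01⟩ := crt2 _ _ c1 r0 a
  obtain ⟨x1, x18, x11⟩ := crt2 _ _ c1 r1 (-a)
  obtain ⟨x2, x28, x21⟩ := crt2 _ _ c1 r2 b
  obtain ⟨x3, x38, x31⟩ := crt2 _ _ c1 r3 (-b)
  refine ⟨![x0, x1, x2, x3], ⟨?_, ?_⟩, ?_, ?_⟩
  · have hsum : (∑ i, (![x0, x1, x2, x3] : Fin 4 → ℤ) i ^ 2) - (n : ℤ) =
        x0 ^ 2 + x1 ^ 2 + x2 ^ 2 + x3 ^ 2 - n := by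
      rw [Fin.sum_univ_four]
      rfl
    rw [hsum]
    have e8 : (8 : ℤ) ∣ x0 ^ 2 + x1 ^ 2 + x2 ^ 2 + x3 ^ 2 - n := by
      have e : x0 ^ 2 + x1 ^ 2 + x2 ^ 2 + x3 ^ 2 - (n : ℤ) = (x0 - r0) * (x0 + r0) + (x1 - r1) * (x1 + r1) +
        (x2 - r2) * (x2 + r2) + (x3 - r3) * (x3 + r3) + (r0 ^ 2 + r1 ^ 2 + r2 ^ 2 + r3 ^ 2 - n) := by ring
      rw [e]
      exact dvd_add (dvd_add (dvd_add (dvd_add (x08.mul_right _) (x18.mul_right _)) (x28.mul_right _))
        (x38.mul_right _)) hr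
    have e1 : (M1 j : ℤ) ∣ x0 ^ 2 + x1 ^ 2 + x2 ^ 2 + x3 ^ 2 - n := by
      have e : x0 ^ 2 + x1 ^ 2 + x2 ^ 2 + x3 ^ 2 - (n : ℤ) = (x0 - a) * (x0 + a) + (x1 - (-a)) * (x1 - a) +
        (x2 - b) * (x2 + b) + (x3 - (-b)) * (x3 - b) + (2 * (a ^ 2 + b ^ 2 - g) + (2 * g - n)) := by ring
      rw [e]
      exact dvd_add (dvd_add (dvd_add (dvd_add (x01.mul_right _) (x11.mul_right _)) (x21.mul_right _))
        (x31.mul_right _)) (dvd_add (hab.mul_left _) hg)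
    have e : (2 * ((4 * M1 j : ℕ) : ℤ)) = 8 * (M1 j : ℤ) := by
      push_cast
      ring
    rw [e]
    exact IsCoprime.mul_dvd c1 e8 e1
  · intro l hl hlD
    have hlp : Prime (l : ℤ) := Nat.prime_iff_prime_int.1 hl
    rcases (Nat.Prime.dvd_mul hl).1 hlD with h7 | h7
    · have h8 : l = 2 := by
        have : l ∣ 2 ^ 2 := by simpa using h7
        exact (Nat.prime_dvd_prime_iff_eq hl Nat.prime_two).1 (hl.dvd_of_dvd_pow this)
      refine ⟨0, ?_⟩
      rw [h8]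
      show ¬ ((2 : ℕ) : ℤ) ∣ x0
      intro h9
      apply hr0
      have e : r0 = x0 - (x0 - r0) := by ring
      rw [e]
      exact dvd_sub (by exact_mod_cast h9) ((by norm_num : (2 : ℤ) ∣ 8).trans x08)
    · have h7' : (l : ℤ) ∣ (M1 j : ℤ) := by exact_mod_cast h7
      by_contra hall
      push Not at hall
      apply hab' l hlp h7'
      constructor
      · have e : a = x0 - (x0 - a) := by ring
        rw [e]; exact dvd_sub (hall 0) (h7'.trans x01)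
      · have e : b = x2 - (x2 - b) := by ring
        rw [e]; exact dvd_sub (hall 2) (h7'.trans x21)
  · show (M1 j : ℤ) ∣ x0 + x1
    have e : x0 + x1 = (x0 - a) + (x1 - (-a)) := by ring
    rw [e]
    exact dvd_add x01 x11
  · show (M1 j : ℤ) ∣ x2 + x3
    have e : x2 + x3 = (x2 - b) + (x3 - (-b)) := by ring
    rw [e]
    exact dvd_add x21 x31

theorem mem_KK' {c : ℝ} (hc : 0 ≤ c) {n k j : ℕ} (hj : 1 ≤ j) (hn : ((2 * n : ℕ) : ℝ) ^ c ≤ 4 ^ j)
    (hk : k ≤ 2 * n) (hd : M1 j ∣ k) : k ∈ KK c := mem_KK hc hj hn hk (Or.inl hd)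

theorem t_O2 : S_O2 := by
  classical
  intro ε hε
  obtain ⟨δ, hδ, n1, h⟩ := orth_count ε hε
  obtain ⟨c, hc0, hc1, hj⟩ := choose_j δ hδ
  refine ⟨c, hc0, hc1, ?_⟩
  filter_upwards [hj, eventually_ge_atTop n1, eventually_ge_atTop 2] with n hnj hn1 hn2 hno
  obtain ⟨j, hj1, hjn, -, hD⟩ := hnj
  obtain ⟨u, hu, hu0, hu2⟩ := class2 n j hno hj1
  have hM1 : 0 < M1 j := by unfold M1; omega
  set D := 4 * M1 j with hDdef
  have hD0 : 0 < D := by positivity
  have h4D : 4 ∣ D := Dvd.intro (M1 j) rfl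
  have hcount := h n D hn1 hno hD0 h4D hD u hu
  have d1 : ((M1 j : ℕ) : ℤ) ∣ (D : ℤ) := by
    rw [hDdef]
    exact_mod_cast Dvd.intro_left 4 rfl
  refine ⟨(orth n D u).image (fun X => ((X 0).toNat, (X 1).toNat, (X 2).toNat, (X 3).toNat)), ?_, ?_⟩
  · rw [Finset.card_image_of_injOn]
    · exact hcount
    · intro X hX Y hY hXY
      rw [Finset.mem_coe, mem_orth] at hX hY
      simp only [Prod.mk.injEq] at hXY
      obtain ⟨e0, e1, e2, e3⟩ := hXY
      have g := hX.2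
      have g' := hY.2
      funext i
      fin_cases i
      · have a1 := g 0; have a2 := g' 0
        show X 0 = Y 0
        omega
      · have a1 := g 1; have a2 := g' 1
        show X 1 = Y 1
        omega
      · have a1 := g 2; have a2 := g' 2
        show X 2 = Y 2
        omega
      · have a1 := g 3; have a2 := g' 3
        show X 3 = Y 3
        omega
  · intro x y z w hxyzw
    rw [Finset.mem_image] at hxyzw
    obtain ⟨X, hX, hXe⟩ := hxyzw
    rw [mem_orth] at hX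
    obtain ⟨⟨hsum, hcong⟩, hpos⟩ := hX
    simp only [Prod.mk.injEq] at hXe
    obtain ⟨e0, e1, e2, e3⟩ := hXe
    have x0 : X 0 = x := by have := hpos 0; omega
    have x1 : X 1 = y := by have := hpos 1; omega
    have x2 : X 2 = z := by have := hpos 2; omega
    have x3 : X 3 = w := by have := hpos 3; omega
    rw [Fin.sum_univ_four, x0, x1, x2, x3] at hsum
    have c0 := hcong 0
    have c1 := hcong 1
    have c2 := hcong 2
    have c3 := hcong 3
    rw [x0] at c0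
    rw [x1] at c1
    rw [x2] at c2
    rw [x3] at c3
    have hs : ((M1 j : ℕ) : ℤ) ∣ (x : ℤ) + y := by
      have e : (x : ℤ) + y = (x - u 0) + (y - u 1) + (u 0 + u 1) := by ring
      rw [e]
      exact dvd_add (dvd_add (d1.trans c0) (d1.trans c1)) hu0
    have ht : ((M1 j : ℕ) : ℤ) ∣ (z : ℤ) + w := by
      have e : (z : ℤ) + w = (z - u 2) + (w - u 3) + (u 2 + u 3) := by ring
      rw [e]
      exact dvd_add (dvd_add (d1.trans c2) (d1.trans c3)) hu2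
    have hn : n = x ^ 2 + y ^ 2 + z ^ 2 + w ^ 2 := by exact_mod_cast hsum.symm
    have hle : ∀ p q : ℕ, p ^ 2 + q ^ 2 ≤ n → p + q ≤ n := by
      intro p q hpq
      have h3 : (p + q) ^ 2 ≤ 2 * n := by nlinarith [sq_nonneg ((p : ℤ) - q), two_mul_le_add_sq p q]
      by_contra h4
      push Not at h4
      nlinarith
    refine ⟨hn, ?_, ?_⟩
    · exact mem_KK hc0.le hj1 hjn (hle x y (by omega)) (Or.inl (by exact_mod_cast hs))
    · exact mem_KK hc0.le hj1 hjn (hle z w (by omega)) (Or.inl (by exact_mod_cast ht))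

end Pool.Agent.D0H86.PW
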