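import Pool.Agent.D0H86.PW.Law3

set_option autoImplicit false

/-! Project PW, very sparse form: the levels. -/

namespace Pool.Agent.D0H86.PW

open Finset Filter MeasureTheory ProbabilityTheory Topology

theorem C1_of (hG : S_G1) (hO : S_O1) : S_C1 := by
  intro ε hε hε1
  obtain ⟨c, -, -, hO'⟩ := hO (ε / 4) (by linarith)
  filter_upwards [hG ε hε hε1, hO'] with n h1 h2 hodd
  obtain ⟨G, hG1, hG2⟩ := h2 hodd
  obtain ⟨X, hX1, hX2⟩ := h1 hodd G hG1 (fun x y z w h => (hG2 x y z w h).1)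
  exact ⟨X, hX1, fun u hu => (hX2 u hu).2⟩

theorem C2_of (hG : S_G2) (hO : S_O2) : S_C2 := by
  intro ε hε hε1
  obtain ⟨c, -, -, hO'⟩ := hO (ε / 4) (by linarith)
  filter_upwards [hG ε hε hε1, hO'] with n h1 h2 hodd
  obtain ⟨G, hG1, hG2⟩ := h2 hodd
  obtain ⟨X, hX1, hX2⟩ := h1 hodd G hG1 (fun x y z w h => (hG2 x y z w h).1)
  exact ⟨X, hX1, fun u hu => (hX2 u hu).2⟩

/-- the levels of one `n` -/
def Lev (δ : ℝ) (Suc : ℕ → ℕ → (ℕ → ℕ) → Prop) (ε : ℝ) (n : ℕ) (X : Finset ℕ) : Prop :=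
  (n : ℝ) ^ (1 / 2 - ε) ≤ X.card ∧ ∀ u ∈ X, u ≤ n ∧ (n : ℝ) ^ (1 / 4 : ℝ) ≤ u ∧ u ^ 2 ≤ 2 * n ∧
    ∀ H : ℕ → ℕ, (∀ k, H k ≤ 2 ^ k) → (2 : ℝ) ^ (δ * u) ≤ H u →
      ∀ b, Val H b → (n : ℝ) ^ (-(4 * ε)) * H u ≤
        ((open Classical in (Ico (2 ^ u) (2 ^ u + H u)).filter
          (fun T => Suc n u (Function.update b u T))).card : ℝ)

theorem rowD1 (h3 : S_N3) (hI : S_IM) (hC : S_C1) : ∃ δ : ℝ, 0 < δ ∧ δ < 1 ∧
    ∀ ε : ℝ, 0 < ε → ε < 1 / 4 → ∀ᶠ n : ℕ in atTop, Odd n → ∃ X : Finset ℕ, Lev δ Suc1 ε n X := by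
  classical
  obtain ⟨δ, hδ, hδ1, hN⟩ := h3
  refine ⟨δ, hδ, hδ1, fun ε hε hε1 => ?_⟩
  obtain ⟨u0, hu0⟩ := hN (2 * ε) (by linarith)
  have h2 : ∀ᶠ u : ℕ in atTop, 2 ≤ (u : ℝ) ^ ε :=
    ((tendsto_rpow_atTop hε).comp tendsto_natCast_atTop_atTop).eventually_ge_atTop _
  obtain ⟨u1, hu1⟩ := eventually_atTop.1 h2
  filter_upwards [hC ε hε hε1, eventually_ge_atTop ((u0 + u1 + 1) ^ 4)] with n hn hn4 hodd
  obtain ⟨X, hX1, hX2⟩ := hn hodd
  refine ⟨X, hX1, fun u hu => ?_⟩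
  obtain ⟨hun, hul, hP⟩ := hX2 u hu
  have hubig : u0 + u1 + 1 ≤ u := pow_low hul _ hn4
  have hupos : (0 : ℝ) < u := by exact_mod_cast (by omega : 0 < u)
  have hne : 0 < (P1 n u).card := by
    have h1 : 0 < (u : ℝ) ^ (1 - ε) := by positivity
    exact_mod_cast h1.trans_le hP
  refine ⟨hun, hul, ?_, fun H hH hHu b hb => ?_⟩
  · obtain ⟨p, hp⟩ := card_pos.1 hne
    unfold P1 at hp
    rw [mem_filter] at hp
    obtain ⟨w, hw⟩ := hp.2.2
    nlinarith [Nat.zero_le (p.1 ^ 2), Nat.zero_le (p.2 ^ 2), Nat.zero_le (w ^ 2)]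
  have hb' := val_lt hH hb
  set S : Finset ℕ := (P1 n u).image (fun p => b p.1 + b p.2 + 1) with hS
  have hPle : ∀ p ∈ P1 n u, p.1 < u ∧ p.2 < u ∧ p.2 ≤ p.1 ∧
      ∃ w : ℕ, n = u ^ 2 + p.1 ^ 2 + p.2 ^ 2 + 4 * w ^ 2 := by
    intro p hp
    unfold P1 at hp
    rw [mem_filter, mem_product, mem_range, mem_range] at hp
    exact ⟨hp.1.1, hp.1.2, hp.2.1, hp.2.2⟩
  have hcard : (P1 n u).card ≤ 2 * S.card := by
    have h5 := hI b hb' (P1 n u) (fun p hp => (hPle p hp).2.2.1)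
    have h6 : S = ((P1 n u).image (fun p => b p.1 + b p.2)).image (fun t => t + 1) := by
      rw [image_image]
      rfl
    have h7 : S.card = ((P1 n u).image (fun p => b p.1 + b p.2)).card := by
      rw [h6]
      exact card_image_of_injective _ (fun s t h => Nat.succ_injective h)
    rw [h7]
    exact h5
  have hSle : ∀ s ∈ S, s ≤ 2 ^ (u + 1) := by
    intro s hs
    rw [hS, mem_image] at hs
    obtain ⟨p, hp, rfl⟩ := hs
    obtain ⟨g1, g2, -, -⟩ := hPle p hp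
    have g3 := (hb' p.1).2
    have g4 := (hb' p.2).2
    have g5 : 2 ^ (p.1 + 1) ≤ 2 ^ u := Nat.pow_le_pow_right (by norm_num) (by omega)
    have g6 : 2 ^ (p.2 + 1) ≤ 2 ^ u := Nat.pow_le_pow_right (by norm_num) (by omega)
    rw [pow_succ 2 u]
    omega
  have hSc : (u : ℝ) ^ (1 - 2 * ε) ≤ S.card := by
    have h5 : ((P1 n u).card : ℝ) ≤ 2 * S.card := by exact_mod_cast hcard
    have h6 : (u : ℝ) ^ (1 - 2 * ε) * (u : ℝ) ^ ε = (u : ℝ) ^ (1 - ε) := by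
      rw [← Real.rpow_add hupos]
      congr 1
      ring
    have h7 := hu1 u (by omega)
    have h8 : 0 < (u : ℝ) ^ (1 - 2 * ε) := by positivity
    nlinarith
  have h9 := hu0 u (H u) (by omega) hHu (hH u) S hSle hSc
  have h10 : (n : ℝ) ^ (-(4 * ε)) ≤ (u : ℝ) ^ (-(2 * (2 * ε))) := by
    have := rpow_mono_neg (n := n) (u := u) (by omega) hun (c := 4 * ε) (by linarith)
    rw [show 2 * (2 * ε) = 4 * ε by ring]
    exact this
  calc (n : ℝ) ^ (-(4 * ε)) * H u ≤ (u : ℝ) ^ (-(2 * (2 * ε))) * H u := by gcongr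
    _ = (H u : ℝ) * (u : ℝ) ^ (-(2 * (2 * ε))) := by ring
    _ ≤ (hit u (H u) S).card := h9
    _ ≤ _ := by
        norm_cast
        apply card_le_card
        intro T hT
        unfold hit at hT
        rw [mem_filter] at hT ⊢
        obtain ⟨hT1, s, hs, hT2⟩ := hT
        refine ⟨hT1, ?_⟩
        rw [hS, mem_image] at hs
        obtain ⟨p, hp, rfl⟩ := hs
        obtain ⟨g1, g2, g3, w, g4⟩ := hPle p hp
        refine ⟨p.1, p.2, w, g1, g3, g4, ?_⟩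
        rw [Function.update_self, Function.update_of_ne (by omega), Function.update_of_ne (by omega)]
        rw [show T + b p.1 + b p.2 + 1 = T + (b p.1 + b p.2 + 1) by ring]
        exact hT2

theorem rowD2 (h3 : S_N3) (hC : S_C2) : ∃ δ : ℝ, 0 < δ ∧ δ < 1 ∧
    ∀ ε : ℝ, 0 < ε → ε < 1 / 4 → ∀ᶠ n : ℕ in atTop, Odd n → ∃ X : Finset ℕ, Lev δ Suc2 ε n X := by
  classical
  obtain ⟨δ, hδ, hδ1, hN⟩ := h3
  refine ⟨δ, hδ, hδ1, fun ε hε hε1 => ?_⟩
  obtain ⟨u0, hu0⟩ := hN (2 * ε) (by linarith)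
  filter_upwards [hC ε hε hε1, eventually_ge_atTop ((u0 + 1) ^ 4)] with n hn hn4 hodd
  obtain ⟨X, hX1, hX2⟩ := hn hodd
  refine ⟨X, hX1, fun u hu => ?_⟩
  obtain ⟨hun, hul, hP⟩ := hX2 u hu
  have hubig : u0 + 1 ≤ u := pow_low hul _ hn4
  have hu1 : (1 : ℝ) ≤ u := by exact_mod_cast (by omega : 1 ≤ u)
  have hne : 0 < (P2 n u).card := by
    have h1 : 0 < (u : ℝ) ^ (1 - ε) := by positivity
    exact_mod_cast h1.trans_le hP
  refine ⟨hun, hul, ?_, fun H hH hHu b hb => ?_⟩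
  · obtain ⟨v, hv⟩ := card_pos.1 hne
    unfold P2 at hv
    rw [mem_filter] at hv
    obtain ⟨x, y, z, w, h4, h5, h6⟩ := hv.2
    rw [← h4]
    nlinarith [Nat.zero_le (z ^ 2), Nat.zero_le (w ^ 2), two_mul_le_add_sq x y]
  have hb' := val_lt hH hb
  have hmono : ∀ i j : ℕ, i < j → b i < b j := by
    intro i j hij
    have h1 := (hb' i).2
    have h2 := (hb' j).1
    have h3 : 2 ^ (i + 1) ≤ 2 ^ j := Nat.pow_le_pow_right (by norm_num) hij
    omega
  set S : Finset ℕ := (P2 n u).image (fun v => b v + 1) with hS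
  have hPle : ∀ v ∈ P2 n u, v < u ∧ ∃ x y z w : ℕ, x + y = u ∧ z + w = v ∧
      n = x ^ 2 + y ^ 2 + z ^ 2 + w ^ 2 := by
    intro v hv
    unfold P2 at hv
    rw [mem_filter, mem_range] at hv
    exact hv
  have hcard : S.card = (P2 n u).card := by
    apply card_image_of_injective
    intro v v' h
    have h1 : b v = b v' := Nat.succ_injective h
    rcases lt_trichotomy v v' with h2 | h2 | h2
    · have := hmono v v' h2
      omega
    · exact h2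
    · have := hmono v' v h2
      omega
  have hSle : ∀ s ∈ S, s ≤ 2 ^ (u + 1) := by
    intro s hs
    rw [hS, mem_image] at hs
    obtain ⟨v, hv, rfl⟩ := hs
    have g1 := (hPle v hv).1
    have g3 := (hb' v).2
    have g5 : 2 ^ (v + 1) ≤ 2 ^ u := Nat.pow_le_pow_right (by norm_num) (by omega)
    rw [pow_succ 2 u]
    omega
  have hSc : (u : ℝ) ^ (1 - 2 * ε) ≤ S.card := by
    rw [hcard]
    refine le_trans ?_ hP
    exact Real.rpow_le_rpow_of_exponent_le hu1 (by linarith)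
  have h9 := hu0 u (H u) (by omega) hHu (hH u) S hSle hSc
  have h10 : (n : ℝ) ^ (-(4 * ε)) ≤ (u : ℝ) ^ (-(2 * (2 * ε))) := by
    have := rpow_mono_neg (n := n) (u := u) (by omega) hun (c := 4 * ε) (by linarith)
    rw [show 2 * (2 * ε) = 4 * ε by ring]
    exact this
  calc (n : ℝ) ^ (-(4 * ε)) * H u ≤ (u : ℝ) ^ (-(2 * (2 * ε))) * H u := by gcongr
    _ = (H u : ℝ) * (u : ℝ) ^ (-(2 * (2 * ε))) := by ring
    _ ≤ (hit u (H u) S).card := h9
    _ ≤ _ := by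
        norm_cast
        apply card_le_card
        intro T hT
        unfold hit at hT
        rw [mem_filter] at hT ⊢
        obtain ⟨hT1, s, hs, hT2⟩ := hT
        refine ⟨hT1, ?_⟩
        rw [hS, mem_image] at hs
        obtain ⟨v, hv, rfl⟩ := hs
        obtain ⟨g1, x, y, z, w, g2, g3, g4⟩ := hPle v hv
        refine ⟨x, y, z, w, g2, by omega, g4, ?_⟩
        rw [g2, g3, Function.update_self, Function.update_of_ne (by omega)]
        rw [show T + b v + 1 = T + (b v + 1) by ring]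
        exact hT2

end Pool.Agent.D0H86.PW
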