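import Pool.Agent.D0H86.PW.Fin

set_option autoImplicit false

/-! Project PW: the two rows. -/

namespace Pool.Agent.D0H86.PW

open Finset Filter MeasureTheory ProbabilityTheory Topology

/-- success at the level `u`, first form -/
def Suc1 (n u : ℕ) (b : ℕ → ℕ) : Prop := ∃ y z w : ℕ, y < u ∧ z ≤ y ∧
  n = u ^ 2 + y ^ 2 + z ^ 2 + 4 * w ^ 2 ∧ (b u + b y + b z + 1).Prime

/-- success at the level `u`, second form -/
def Suc2 (n u : ℕ) (b : ℕ → ℕ) : Prop := ∃ x y z w : ℕ, x + y = u ∧ z + w < u ∧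
  n = x ^ 2 + y ^ 2 + z ^ 2 + w ^ 2 ∧ (b (x + y) + b (z + w) + 1).Prime

theorem loc1 (n u : ℕ) (b b' : ℕ → ℕ) (h : ∀ k ≤ u, b k = b' k) (h1 : Suc1 n u b) : Suc1 n u b' := by
  obtain ⟨y, z, w, hy, hz, hn, hp⟩ := h1
  refine ⟨y, z, w, hy, hz, hn, ?_⟩
  rw [← h u le_rfl, ← h y hy.le, ← h z (by omega)]
  exact hp

theorem loc2 (n u : ℕ) (b b' : ℕ → ℕ) (h : ∀ k ≤ u, b k = b' k) (h1 : Suc2 n u b) : Suc2 n u b' := by
  obtain ⟨x, y, z, w, hx, hz, hn, hp⟩ := h1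
  refine ⟨x, y, z, w, hx, hz, hn, ?_⟩
  rw [← h (x + y) hx.le, ← h (z + w) hz.le]
  exact hp

/-- the quadruples of the first form with a prime value -/
def Q1 (b : ℕ → ℕ) (n : ℕ) : Set (ℕ × ℕ × ℕ × ℕ) :=
  {v | n = v.1 ^ 2 + v.2.1 ^ 2 + v.2.2.1 ^ 2 + 4 * v.2.2.2 ^ 2 ∧
    (b v.1 + b v.2.1 + b v.2.2.1 + 1).Prime}

/-- the quadruples of the second form with a prime value -/
def Q2 (b : ℕ → ℕ) (n : ℕ) : Set (ℕ × ℕ × ℕ × ℕ) :=
  {v | n = v.1 ^ 2 + v.2.1 ^ 2 + v.2.2.1 ^ 2 + v.2.2.2 ^ 2 ∧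
    (b (v.1 + v.2.1) + b (v.2.2.1 + v.2.2.2) + 1).Prime}

theorem sq_le_self' {x n : ℕ} (h : x ^ 2 ≤ n) : x ≤ n := by
  rcases Nat.eq_zero_or_pos x with h0 | h0
  · omega
  · nlinarith

theorem fin1 (b : ℕ → ℕ) (n : ℕ) : (Q1 b n).Finite := by
  refine ((Set.finite_Iic n).prod ((Set.finite_Iic n).prod ((Set.finite_Iic n).prod
    (Set.finite_Iic n)))).subset ?_
  rintro ⟨x, y, z, w⟩ ⟨h, -⟩
  simp only at h
  have hx : x ≤ n := sq_le_self' (by omega)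
  have hy : y ≤ n := sq_le_self' (by omega)
  have hz : z ≤ n := sq_le_self' (by omega)
  have hw : w ≤ n := sq_le_self' (by omega)
  exact ⟨hx, hy, hz, hw⟩

theorem fin2 (b : ℕ → ℕ) (n : ℕ) : (Q2 b n).Finite := by
  refine ((Set.finite_Iic n).prod ((Set.finite_Iic n).prod ((Set.finite_Iic n).prod
    (Set.finite_Iic n)))).subset ?_
  rintro ⟨x, y, z, w⟩ ⟨h, -⟩
  simp only at h
  have hx : x ≤ n := sq_le_self' (by omega)
  have hy : y ≤ n := sq_le_self' (by omega)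
  have hz : z ≤ n := sq_le_self' (by omega)
  have hw : w ≤ n := sq_le_self' (by omega)
  exact ⟨hx, hy, hz, hw⟩

theorem count1 (b : ℕ → ℕ) (n : ℕ) (F : Finset ℕ) (hF : ∀ u ∈ F, Suc1 n u b) :
    F.card ≤ (Q1 b n).ncard := by
  classical
  choose! y z w hy hz hn hp using hF
  rw [← Set.ncard_coe_finset F]
  refine Set.ncard_le_ncard_of_injOn (fun u => (u, y u, z u, w u)) ?_ ?_ (fin1 b n)
  · intro u hu
    exact ⟨hn u hu, hp u hu⟩
  · intro u _ v _ huv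
    exact (Prod.mk.inj huv).1

theorem count2 (b : ℕ → ℕ) (n : ℕ) (F : Finset ℕ) (hF : ∀ u ∈ F, Suc2 n u b) :
    F.card ≤ (Q2 b n).ncard := by
  classical
  choose! x y z w hx hz hn hp using hF
  rw [← Set.ncard_coe_finset F]
  refine Set.ncard_le_ncard_of_injOn (fun u => (x u, y u, z u, w u)) ?_ ?_ (fin2 b n)
  · intro u hu
    exact ⟨hn u hu, hp u hu⟩
  · intro u hu v hv huv
    have h1 := (Prod.mk.inj huv).1
    have h2 := (Prod.mk.inj (Prod.mk.inj huv).2).1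
    rw [← hx u hu, ← hx v hv, h1, h2]

theorem pow_low {n u : ℕ} (h : (n : ℝ) ^ (1 / 4 : ℝ) ≤ u) (u₀ : ℕ) (hn : u₀ ^ 4 ≤ n) : u₀ ≤ u := by
  have h1 : (u₀ : ℝ) ≤ (n : ℝ) ^ (1 / 4 : ℝ) := by
    have h2 : ((u₀ : ℝ) ^ 4) ^ (1 / 4 : ℝ) ≤ (n : ℝ) ^ (1 / 4 : ℝ) := by
      apply Real.rpow_le_rpow (by positivity) _ (by norm_num)
      exact_mod_cast hn
    have h3 : ((u₀ : ℝ) ^ 4) ^ (1 / 4 : ℝ) = u₀ := by
      rw [← Real.rpow_natCast, ← Real.rpow_mul (Nat.cast_nonneg _)]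
      norm_num
    rwa [h3] at h2
  exact_mod_cast h1.trans h

theorem val_lt {H b : ℕ → ℕ} (hH : ∀ k, H k ≤ 2 ^ k) (hb : Val H b) (k : ℕ) :
    2 ^ k ≤ b k ∧ b k < 2 ^ (k + 1) := by
  refine ⟨(hb k).1, ?_⟩
  have h1 := (hb k).2
  have h2 := hH k
  rw [pow_succ]
  omega

theorem rpow_mono_neg {n u : ℕ} (hu : 1 ≤ u) (hun : u ≤ n) {c : ℝ} (hc : 0 ≤ c) :
    (n : ℝ) ^ (-c) ≤ (u : ℝ) ^ (-c) := by
  have hu1 : (0 : ℝ) < u := by exact_mod_cast hu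
  exact Real.rpow_le_rpow_of_nonpos hu1 (by exact_mod_cast hun) (by linarith)

theorem row1 (h3 : S_N3) (hI : S_IM) (hC : S_C1) : ∃ δ : ℝ, 0 < δ ∧ δ < 1 ∧ ∀ H : ℕ → ℕ,
    (∀ k, H k ≤ 2 ^ k) → (∀ᶠ k : ℕ in atTop, (2 : ℝ) ^ (δ * k) ≤ H k) →
    ∀ ε : ℝ, 0 < ε → ε < 1 / 4 → ∀ᶠ n : ℕ in atTop, Odd n → ∃ X : Finset ℕ,
      (n : ℝ) ^ (1 / 2 - ε) ≤ X.card ∧ ∀ u ∈ X, ∀ b, Val H b → (n : ℝ) ^ (-(4 * ε)) * H u ≤
        ((open Classical in (Ico (2 ^ u) (2 ^ u + H u)).filter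
          (fun T => Suc1 n u (Function.update b u T))).card : ℝ) := by
  classical
  obtain ⟨δ, hδ, hδ1, hN⟩ := h3
  refine ⟨δ, hδ, hδ1, fun H hH hHl ε hε hε1 => ?_⟩
  obtain ⟨k0, hk0⟩ := eventually_atTop.1 hHl
  obtain ⟨u0, hu0⟩ := hN (2 * ε) (by linarith)
  have h2 : ∀ᶠ u : ℕ in atTop, 2 ≤ (u : ℝ) ^ ε :=
    ((tendsto_rpow_atTop hε).comp tendsto_natCast_atTop_atTop).eventually_ge_atTop _
  obtain ⟨u1, hu1⟩ := eventually_atTop.1 h2
  filter_upwards [hC ε hε hε1, eventually_ge_atTop ((k0 + u0 + u1 + 1) ^ 4)] with n hn hn4 hodd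
  obtain ⟨X, hX1, hX2⟩ := hn hodd
  refine ⟨X, hX1, fun u hu b hb => ?_⟩
  obtain ⟨hun, hul, hP⟩ := hX2 u hu
  have hubig : k0 + u0 + u1 + 1 ≤ u := pow_low hul _ hn4
  have hupos : (0 : ℝ) < u := by exact_mod_cast (by omega : 0 < u)
  have hb' := val_lt hH hb
  set S : Finset ℕ := (P1 n u).image (fun p => b p.1 + b p.2 + 1) with hS
  have hPle : ∀ p ∈ P1 n u, p.1 < u ∧ p.2 < u ∧ p.2 ≤ p.1 ∧
      ∃ w : ℕ, n = u ^ 2 + p.1 ^ 2 + p.2 ^ 2 + 4 * w ^ 2 := by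
    intro p hp
    unfold P1 at hp
    rw [mem_filter, mem_product, mem_range, mem_range] at hp
    exact ⟨hp.1.1, hp.1.2, hp.2.1, hp.2.2⟩
  have hcard : (P1 n u).card ≤ 2 * S.card := by
    have h5 := hI b hb' (P1 n u) (fun p hp => (hPle p hp).2.2.1)
    have h6 : S = ((P1 n u).image (fun p => b p.1 + b p.2)).image (fun t => t + 1) := by
      rw [image_image]
      rfl
    have h7 : S.card = ((P1 n u).image (fun p => b p.1 + b p.2)).card := by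
      rw [h6]
      exact card_image_of_injective _ (fun s t h => Nat.succ_injective h)
    rw [h7]
    exact h5
  have hSle : ∀ s ∈ S, s ≤ 2 ^ (u + 1) := by
    intro s hs
    rw [hS, mem_image] at hs
    obtain ⟨p, hp, rfl⟩ := hs
    obtain ⟨g1, g2, -, -⟩ := hPle p hp
    have g3 := (hb' p.1).2
    have g4 := (hb' p.2).2
    have g5 : 2 ^ (p.1 + 1) ≤ 2 ^ u := Nat.pow_le_pow_right (by norm_num) (by omega)
    have g6 : 2 ^ (p.2 + 1) ≤ 2 ^ u := Nat.pow_le_pow_right (by norm_num) (by omega)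
    rw [pow_succ 2 u]
    omega
  have hSc : (u : ℝ) ^ (1 - 2 * ε) ≤ S.card := by
    have h5 : ((P1 n u).card : ℝ) ≤ 2 * S.card := by exact_mod_cast hcard
    have h6 : (u : ℝ) ^ (1 - 2 * ε) * (u : ℝ) ^ ε = (u : ℝ) ^ (1 - ε) := by
      rw [← Real.rpow_add hupos]
      congr 1
      ring
    have h7 := hu1 u (by omega)
    have h8 : 0 < (u : ℝ) ^ (1 - 2 * ε) := by positivity
    nlinarith
  have h9 := hu0 u (H u) (by omega) (hk0 u (by omega)) (hH u) S hSle hSc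
  have h10 : (n : ℝ) ^ (-(4 * ε)) ≤ (u : ℝ) ^ (-(2 * (2 * ε))) := by
    have := rpow_mono_neg (n := n) (u := u) (by omega) hun (c := 4 * ε) (by linarith)
    rw [show 2 * (2 * ε) = 4 * ε by ring]
    exact this
  calc (n : ℝ) ^ (-(4 * ε)) * H u ≤ (u : ℝ) ^ (-(2 * (2 * ε))) * H u := by gcongr
    _ = (H u : ℝ) * (u : ℝ) ^ (-(2 * (2 * ε))) := by ring
    _ ≤ (hit u (H u) S).card := h9
    _ ≤ _ := by
        norm_cast
        apply card_le_card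
        intro T hT
        unfold hit at hT
        rw [mem_filter] at hT ⊢
        obtain ⟨hT1, s, hs, hT2⟩ := hT
        refine ⟨hT1, ?_⟩
        rw [hS, mem_image] at hs
        obtain ⟨p, hp, rfl⟩ := hs
        obtain ⟨g1, g2, g3, w, g4⟩ := hPle p hp
        refine ⟨p.1, p.2, w, g1, g3, g4, ?_⟩
        rw [Function.update_self, Function.update_of_ne (by omega), Function.update_of_ne (by omega)]
        rw [show T + b p.1 + b p.2 + 1 = T + (b p.1 + b p.2 + 1) by ring]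
        exact hT2

theorem row2 (h3 : S_N3) (hC : S_C2) : ∃ δ : ℝ, 0 < δ ∧ δ < 1 ∧ ∀ H : ℕ → ℕ,
    (∀ k, H k ≤ 2 ^ k) → (∀ᶠ k : ℕ in atTop, (2 : ℝ) ^ (δ * k) ≤ H k) →
    ∀ ε : ℝ, 0 < ε → ε < 1 / 4 → ∀ᶠ n : ℕ in atTop, Odd n → ∃ X : Finset ℕ,
      (n : ℝ) ^ (1 / 2 - ε) ≤ X.card ∧ ∀ u ∈ X, ∀ b, Val H b → (n : ℝ) ^ (-(4 * ε)) * H u ≤
        ((open Classical in (Ico (2 ^ u) (2 ^ u + H u)).filter
          (fun T => Suc2 n u (Function.update b u T))).card : ℝ) := by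
  classical
  obtain ⟨δ, hδ, hδ1, hN⟩ := h3
  refine ⟨δ, hδ, hδ1, fun H hH hHl ε hε hε1 => ?_⟩
  obtain ⟨k0, hk0⟩ := eventually_atTop.1 hHl
  obtain ⟨u0, hu0⟩ := hN (2 * ε) (by linarith)
  filter_upwards [hC ε hε hε1, eventually_ge_atTop ((k0 + u0 + 1) ^ 4)] with n hn hn4 hodd
  obtain ⟨X, hX1, hX2⟩ := hn hodd
  refine ⟨X, hX1, fun u hu b hb => ?_⟩
  obtain ⟨hun, hul, hP⟩ := hX2 u hu
  have hubig : k0 + u0 + 1 ≤ u := pow_low hul _ hn4
  have hu1 : (1 : ℝ) ≤ u := by exact_mod_cast (by omega : 1 ≤ u)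
  have hb' := val_lt hH hb
  have hmono : ∀ i j : ℕ, i < j → b i < b j := by
    intro i j hij
    have h1 := (hb' i).2
    have h2 := (hb' j).1
    have h3 : 2 ^ (i + 1) ≤ 2 ^ j := Nat.pow_le_pow_right (by norm_num) hij
    omega
  set S : Finset ℕ := (P2 n u).image (fun v => b v + 1) with hS
  have hPle : ∀ v ∈ P2 n u, v < u ∧ ∃ x y z w : ℕ, x + y = u ∧ z + w = v ∧
      n = x ^ 2 + y ^ 2 + z ^ 2 + w ^ 2 := by
    intro v hv
    unfold P2 at hv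
    rw [mem_filter, mem_range] at hv
    exact hv
  have hcard : S.card = (P2 n u).card := by
    apply card_image_of_injective
    intro v v' h
    have h1 : b v = b v' := Nat.succ_injective h
    rcases lt_trichotomy v v' with h2 | h2 | h2
    · have := hmono v v' h2
      omega
    · exact h2
    · have := hmono v' v h2
      omega
  have hSle : ∀ s ∈ S, s ≤ 2 ^ (u + 1) := by
    intro s hs
    rw [hS, mem_image] at hs
    obtain ⟨v, hv, rfl⟩ := hs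
    have g1 := (hPle v hv).1
    have g3 := (hb' v).2
    have g5 : 2 ^ (v + 1) ≤ 2 ^ u := Nat.pow_le_pow_right (by norm_num) (by omega)
    rw [pow_succ 2 u]
    omega
  have hSc : (u : ℝ) ^ (1 - 2 * ε) ≤ S.card := by
    rw [hcard]
    refine le_trans ?_ hP
    exact Real.rpow_le_rpow_of_exponent_le hu1 (by linarith)
  have h9 := hu0 u (H u) (by omega) (hk0 u (by omega)) (hH u) S hSle hSc
  have h10 : (n : ℝ) ^ (-(4 * ε)) ≤ (u : ℝ) ^ (-(2 * (2 * ε))) := by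
    have := rpow_mono_neg (n := n) (u := u) (by omega) hun (c := 4 * ε) (by linarith)
    rw [show 2 * (2 * ε) = 4 * ε by ring]
    exact this
  calc (n : ℝ) ^ (-(4 * ε)) * H u ≤ (u : ℝ) ^ (-(2 * (2 * ε))) * H u := by gcongr
    _ = (H u : ℝ) * (u : ℝ) ^ (-(2 * (2 * ε))) := by ring
    _ ≤ (hit u (H u) S).card := h9
    _ ≤ _ := by
        norm_cast
        apply card_le_card
        intro T hT
        unfold hit at hT
        rw [mem_filter] at hT ⊢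
        obtain ⟨hT1, s, hs, hT2⟩ := hT
        refine ⟨hT1, ?_⟩
        rw [hS, mem_image] at hs
        obtain ⟨v, hv, rfl⟩ := hs
        obtain ⟨g1, x, y, z, w, g2, g3, g4⟩ := hPle v hv
        refine ⟨x, y, z, w, g2, by omega, g4, ?_⟩
        rw [g2, g3, Function.update_self, Function.update_of_ne (by omega)]
        rw [show T + b v + 1 = T + (b v + 1) by ring]
        exact hT2

/-- almost all values of the model are values -/
theorem ae_val {Ω : Type} [MeasurableSpace Ω] {μ : Measure Ω} [IsProbabilityMeasure μ]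
    {a : ℕ → Ω → ℕ} {H : ℕ → ℕ} (hM : Model μ a H) : ∀ᵐ ω ∂μ, Val H (fun k => a k ω) := by
  unfold Val
  rw [ae_all_iff]
  intro k
  have h1 : ∀ᵐ ω ∂μ, ∀ j : ℕ, ¬ (2 ^ k ≤ j ∧ j < 2 ^ k + H k) → a k ω ≠ j := by
    rw [ae_all_iff]
    intro j
    by_cases hj : 2 ^ k ≤ j ∧ j < 2 ^ k + H k
    · exact Eventually.of_forall fun ω h => absurd hj h
    · have h2 := hM.unif k j
      rw [if_neg hj, measureReal_eq_zero_iff] at h2
      have h3 : ∀ᵐ ω ∂μ, ω ∉ {ω | a k ω = j} := measure_eq_zero_iff_ae_notMem.1 h2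
      filter_upwards [h3] with ω hω _
      exact hω
  filter_upwards [h1] with ω hω
  by_contra h
  exact hω (a k ω) h rfl

end Pool.Agent.D0H86.PW
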