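import Pool.Agent.D0H86.PW.Rows
import Pool.Agent.D0H86.PW.Stm3

set_option autoImplicit false

/-! Project PW, sparse form: assembly. -/

namespace Pool.Agent.D0H86.PW

open Finset Filter MeasureTheory ProbabilityTheory Topology

open Classical in
/-- the law from the trials, one exponent -/
theorem law1 (hPE : S_PE) {Ω : Type} [MeasurableSpace Ω] {μ : Measure Ω} [IsProbabilityMeasure μ]
    {a : ℕ → Ω → ℕ} {H : ℕ → ℕ} (hM : Model μ a H) (Suc : ℕ → ℕ → (ℕ → ℕ) → Prop)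
    (hloc : ∀ n u b b', (∀ k ≤ u, b k = b' k) → Suc n u b → Suc n u b')
    (R : (ℕ → ℕ) → ℕ → ℕ)
    (hR : ∀ b n (F : Finset ℕ), (∀ u ∈ F, Suc n u b) → F.card ≤ R b n)
    (e : ℝ) (he : 0 < e) (he1 : e ≤ 1 / 24)
    (hX : ∀ᶠ n : ℕ in atTop, Odd n → ∃ X : Finset ℕ,
      (n : ℝ) ^ (1 / 2 - e) ≤ X.card ∧ ∀ u ∈ X, ∀ b, Val H b → (n : ℝ) ^ (-(4 * e)) * H u ≤
        (((Ico (2 ^ u) (2 ^ u + H u)).filter (fun T => Suc n u (Function.update b u T))).card : ℝ)) :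
    ∀ᵐ ω ∂μ, ∀ᶠ n : ℕ in atTop, Odd n →
      (n : ℝ) ^ (1 / 2 - 6 * e) ≤ R (fun k => a k ω) n := by
  set E : ℕ → Set Ω := fun n => {ω | Odd n ∧ (R (fun k => a k ω) n : ℝ) < (n : ℝ) ^ (1 / 2 - 6 * e)}
    with hE
  have hbd : ∀ᶠ n : ℕ in atTop, μ (E n) ≤ ENNReal.ofReal (1 / (n : ℝ) ^ 2) := by
    filter_upwards [num e he he1, hX, eventually_ge_atTop 1] with n h1 h2 h3
    have hn1 : (1 : ℝ) ≤ n := by exact_mod_cast h3
    have hn0 : (0 : ℝ) < n := by linarith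
    by_cases hn : Odd n
    · obtain ⟨X, hX1, hX2⟩ := h2 hn
      set m : ℕ := ⌈(n : ℝ) ^ (1 / 2 - 6 * e)⌉₊ with hm
      have hD1 : (n : ℝ) ^ (-(4 * e)) ≤ 1 := Real.rpow_le_one_of_one_le_of_nonpos hn1 (by linarith)
      have h4 := hPE Ω μ a H hM (Suc n) (hloc n) X ((n : ℝ) ^ (-(4 * e))) (by positivity) hD1 hX2 m
      have h5 := h1 X.card m hX1 (by
        rw [hm]
        exact (Nat.ceil_lt_add_one (by positivity)).le)
      have hsub : E n ⊆ {ω | (X.filter (fun u => Suc n u (fun k => a k ω))).card < m} := by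
        rintro ω ⟨-, hω⟩
        have h6 := hR (fun k => a k ω) n (X.filter (fun u => Suc n u (fun k => a k ω)))
          (fun u hu => (mem_filter.1 hu).2)
        have h7 : (((X.filter (fun u => Suc n u (fun k => a k ω))).card : ℕ) : ℝ) < m := by
          have h8 : (((X.filter (fun u => Suc n u (fun k => a k ω))).card : ℕ) : ℝ) ≤
              R (fun k => a k ω) n := by exact_mod_cast h6
          exact (h8.trans_lt hω).trans_le (Nat.le_ceil _)
        show (X.filter (fun u => Suc n u (fun k => a k ω))).card < m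
        exact_mod_cast h7
      refine (measure_mono hsub).trans ?_
      rw [← ENNReal.ofReal_toReal (measure_ne_top μ _)]
      exact ENNReal.ofReal_le_ofReal (h4.trans h5)
    · have : E n = ∅ := by
        ext ω
        simp [hE, hn]
      rw [this, measure_empty]
      exact zero_le
  obtain ⟨n0, hn0⟩ := eventually_atTop.1 hbd
  have hsum : ∑' n : ℕ, μ (E (n + n0)) ≠ ⊤ := by
    have h1 : Summable (fun n : ℕ => 1 / (((n + n0 : ℕ) : ℝ)) ^ 2) := by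
      have := (Real.summable_one_div_nat_pow (p := 2)).2 (by norm_num)
      exact (summable_nat_add_iff (f := fun n : ℕ => 1 / (n : ℝ) ^ 2) n0).2 this
    refine ne_top_of_le_ne_top h1.tsum_ofReal_ne_top ?_
    exact ENNReal.tsum_le_tsum fun n => hn0 (n + n0) (by omega)
  filter_upwards [ae_eventually_notMem hsum] with ω hω
  obtain ⟨n1, hn1⟩ := eventually_atTop.1 hω
  rw [eventually_atTop]
  refine ⟨n1 + n0, fun n hn hodd => ?_⟩
  have h1 := hn1 (n - n0) (by omega)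
  rw [show n - n0 + n0 = n by omega] at h1
  by_contra h2
  push Not at h2
  exact h1 ⟨hodd, h2⟩

theorem rowK1 (h3 : S_N3) (hI : S_IM) (hG : S_G1) (hO : S_O1) : ∃ δ : ℝ, 0 < δ ∧ δ < 1 ∧
    ∀ ε : ℝ, 0 < ε → ε < 1 / 4 → ∃ c : ℝ, 0 < c ∧ c ≤ 1 ∧ ∀ H : ℕ → ℕ,
    (∀ k, H k ≤ 2 ^ k) → (∀ᶠ k : ℕ in atTop, k ∈ KK c → (2 : ℝ) ^ (δ * k) ≤ H k) →
    ∀ᶠ n : ℕ in atTop, Odd n → ∃ X : Finset ℕ,
      (n : ℝ) ^ (1 / 2 - ε) ≤ X.card ∧ ∀ u ∈ X, ∀ b, Val H b → (n : ℝ) ^ (-(4 * ε)) * H u ≤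
        ((open Classical in (Ico (2 ^ u) (2 ^ u + H u)).filter
          (fun T => Suc1 n u (Function.update b u T))).card : ℝ) := by
  classical
  obtain ⟨δ, hδ, hδ1, hN⟩ := h3
  refine ⟨δ, hδ, hδ1, fun ε hε hε1 => ?_⟩
  obtain ⟨c, hc0, hc1, hO'⟩ := hO (ε / 4) (by linarith)
  refine ⟨c, hc0, hc1, fun H hH hHl => ?_⟩
  obtain ⟨k0, hk0⟩ := eventually_atTop.1 hHl
  obtain ⟨u0, hu0⟩ := hN (2 * ε) (by linarith)
  have h2 : ∀ᶠ u : ℕ in atTop, 2 ≤ (u : ℝ) ^ ε :=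
    ((tendsto_rpow_atTop hε).comp tendsto_natCast_atTop_atTop).eventually_ge_atTop _
  obtain ⟨u1, hu1⟩ := eventually_atTop.1 h2
  filter_upwards [hG ε hε hε1, hO', eventually_ge_atTop ((k0 + u0 + u1 + 1) ^ 4)] with n hn hnO hn4 hodd
  obtain ⟨G, hG1, hG2⟩ := hnO hodd
  obtain ⟨X, hX1, hX2⟩ := hn hodd G hG1 (fun x y z w h => (hG2 x y z w h).1)
  refine ⟨X, hX1, fun u hu b hb => ?_⟩
  obtain ⟨⟨x₀, y₀, z₀, w₀, hG₀, hu₀⟩, hun, hul, hP⟩ := hX2 u hu
  have huK : u ∈ KK c := by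
    obtain ⟨-, k1, k2, k3⟩ := hG2 x₀ y₀ z₀ w₀ hG₀
    rcases hu₀ with h | h | h <;> rw [h]
    · exact k1
    · exact k2
    · exact k3
  have hubig : k0 + u0 + u1 + 1 ≤ u := pow_low hul _ hn4
  have hupos : (0 : ℝ) < u := by exact_mod_cast (by omega : 0 < u)
  have hb' := val_lt hH hb
  set S : Finset ℕ := (P1 n u).image (fun p => b p.1 + b p.2 + 1) with hS
  have hPle : ∀ p ∈ P1 n u, p.1 < u ∧ p.2 < u ∧ p.2 ≤ p.1 ∧
      ∃ w : ℕ, n = u ^ 2 + p.1 ^ 2 + p.2 ^ 2 + 4 * w ^ 2 := by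
    intro p hp
    unfold P1 at hp
    rw [mem_filter, mem_product, mem_range, mem_range] at hp
    exact ⟨hp.1.1, hp.1.2, hp.2.1, hp.2.2⟩
  have hcard : (P1 n u).card ≤ 2 * S.card := by
    have h5 := hI b hb' (P1 n u) (fun p hp => (hPle p hp).2.2.1)
    have h6 : S = ((P1 n u).image (fun p => b p.1 + b p.2)).image (fun t => t + 1) := by
      rw [image_image]
      rfl
    have h7 : S.card = ((P1 n u).image (fun p => b p.1 + b p.2)).card := by
      rw [h6]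
      exact card_image_of_injective _ (fun s t h => Nat.succ_injective h)
    rw [h7]
    exact h5
  have hSle : ∀ s ∈ S, s ≤ 2 ^ (u + 1) := by
    intro s hs
    rw [hS, mem_image] at hs
    obtain ⟨p, hp, rfl⟩ := hs
    obtain ⟨g1, g2, -, -⟩ := hPle p hp
    have g3 := (hb' p.1).2
    have g4 := (hb' p.2).2
    have g5 : 2 ^ (p.1 + 1) ≤ 2 ^ u := Nat.pow_le_pow_right (by norm_num) (by omega)
    have g6 : 2 ^ (p.2 + 1) ≤ 2 ^ u := Nat.pow_le_pow_right (by norm_num) (by omega)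
    rw [pow_succ 2 u]
    omega
  have hSc : (u : ℝ) ^ (1 - 2 * ε) ≤ S.card := by
    have h5 : ((P1 n u).card : ℝ) ≤ 2 * S.card := by exact_mod_cast hcard
    have h6 : (u : ℝ) ^ (1 - 2 * ε) * (u : ℝ) ^ ε = (u : ℝ) ^ (1 - ε) := by
      rw [← Real.rpow_add hupos]
      congr 1
      ring
    have h7 := hu1 u (by omega)
    have h8 : 0 < (u : ℝ) ^ (1 - 2 * ε) := by positivity
    nlinarith
  have h9 := hu0 u (H u) (by omega) (hk0 u (by omega) huK) (hH u) S hSle hSc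
  have h10 : (n : ℝ) ^ (-(4 * ε)) ≤ (u : ℝ) ^ (-(2 * (2 * ε))) := by
    have := rpow_mono_neg (n := n) (u := u) (by omega) hun (c := 4 * ε) (by linarith)
    rw [show 2 * (2 * ε) = 4 * ε by ring]
    exact this
  calc (n : ℝ) ^ (-(4 * ε)) * H u ≤ (u : ℝ) ^ (-(2 * (2 * ε))) * H u := by gcongr
    _ = (H u : ℝ) * (u : ℝ) ^ (-(2 * (2 * ε))) := by ring
    _ ≤ (hit u (H u) S).card := h9
    _ ≤ _ := by
        norm_cast
        apply card_le_card
        intro T hT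
        unfold hit at hT
        rw [mem_filter] at hT ⊢
        obtain ⟨hT1, s, hs, hT2⟩ := hT
        refine ⟨hT1, ?_⟩
        rw [hS, mem_image] at hs
        obtain ⟨p, hp, rfl⟩ := hs
        obtain ⟨g1, g2, g3, w, g4⟩ := hPle p hp
        refine ⟨p.1, p.2, w, g1, g3, g4, ?_⟩
        rw [Function.update_self, Function.update_of_ne (by omega), Function.update_of_ne (by omega)]
        rw [show T + b p.1 + b p.2 + 1 = T + (b p.1 + b p.2 + 1) by ring]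
        exact hT2

theorem rowK2 (h3 : S_N3) (hG : S_G2) (hO : S_O2) : ∃ δ : ℝ, 0 < δ ∧ δ < 1 ∧
    ∀ ε : ℝ, 0 < ε → ε < 1 / 4 → ∃ c : ℝ, 0 < c ∧ c ≤ 1 ∧ ∀ H : ℕ → ℕ,
    (∀ k, H k ≤ 2 ^ k) → (∀ᶠ k : ℕ in atTop, k ∈ KK c → (2 : ℝ) ^ (δ * k) ≤ H k) →
    ∀ᶠ n : ℕ in atTop, Odd n → ∃ X : Finset ℕ,
      (n : ℝ) ^ (1 / 2 - ε) ≤ X.card ∧ ∀ u ∈ X, ∀ b, Val H b → (n : ℝ) ^ (-(4 * ε)) * H u ≤
        ((open Classical in (Ico (2 ^ u) (2 ^ u + H u)).filter
          (fun T => Suc2 n u (Function.update b u T))).card : ℝ) := by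
  classical
  obtain ⟨δ, hδ, hδ1, hN⟩ := h3
  refine ⟨δ, hδ, hδ1, fun ε hε hε1 => ?_⟩
  obtain ⟨c, hc0, hc1, hO'⟩ := hO (ε / 4) (by linarith)
  refine ⟨c, hc0, hc1, fun H hH hHl => ?_⟩
  obtain ⟨k0, hk0⟩ := eventually_atTop.1 hHl
  obtain ⟨u0, hu0⟩ := hN (2 * ε) (by linarith)
  filter_upwards [hG ε hε hε1, hO', eventually_ge_atTop ((k0 + u0 + 1) ^ 4)] with n hn hnO hn4 hodd
  obtain ⟨G, hG1, hG2⟩ := hnO hodd
  obtain ⟨X, hX1, hX2⟩ := hn hodd G hG1 (fun x y z w h => (hG2 x y z w h).1)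
  refine ⟨X, hX1, fun u hu b hb => ?_⟩
  obtain ⟨⟨x₀, y₀, z₀, w₀, hG₀, hu₀⟩, hun, hul, hP⟩ := hX2 u hu
  have huK : u ∈ KK c := by
    obtain ⟨-, k1, k2⟩ := hG2 x₀ y₀ z₀ w₀ hG₀
    rcases hu₀ with h | h <;> rw [h]
    · exact k1
    · exact k2
  have hubig : k0 + u0 + 1 ≤ u := pow_low hul _ hn4
  have hu1 : (1 : ℝ) ≤ u := by exact_mod_cast (by omega : 1 ≤ u)
  have hb' := val_lt hH hb
  have hmono : ∀ i j : ℕ, i < j → b i < b j := by
    intro i j hij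
    have h1 := (hb' i).2
    have h2 := (hb' j).1
    have h3 : 2 ^ (i + 1) ≤ 2 ^ j := Nat.pow_le_pow_right (by norm_num) hij
    omega
  set S : Finset ℕ := (P2 n u).image (fun v => b v + 1) with hS
  have hPle : ∀ v ∈ P2 n u, v < u ∧ ∃ x y z w : ℕ, x + y = u ∧ z + w = v ∧
      n = x ^ 2 + y ^ 2 + z ^ 2 + w ^ 2 := by
    intro v hv
    unfold P2 at hv
    rw [mem_filter, mem_range] at hv
    exact hv
  have hcard : S.card = (P2 n u).card := by
    apply card_image_of_injective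
    intro v v' h
    have h1 : b v = b v' := Nat.succ_injective h
    rcases lt_trichotomy v v' with h2 | h2 | h2
    · have := hmono v v' h2
      omega
    · exact h2
    · have := hmono v' v h2
      omega
  have hSle : ∀ s ∈ S, s ≤ 2 ^ (u + 1) := by
    intro s hs
    rw [hS, mem_image] at hs
    obtain ⟨v, hv, rfl⟩ := hs
    have g1 := (hPle v hv).1
    have g3 := (hb' v).2
    have g5 : 2 ^ (v + 1) ≤ 2 ^ u := Nat.pow_le_pow_right (by norm_num) (by omega)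
    rw [pow_succ 2 u]
    omega
  have hSc : (u : ℝ) ^ (1 - 2 * ε) ≤ S.card := by
    rw [hcard]
    refine le_trans ?_ hP
    exact Real.rpow_le_rpow_of_exponent_le hu1 (by linarith)
  have h9 := hu0 u (H u) (by omega) (hk0 u (by omega) huK) (hH u) S hSle hSc
  have h10 : (n : ℝ) ^ (-(4 * ε)) ≤ (u : ℝ) ^ (-(2 * (2 * ε))) := by
    have := rpow_mono_neg (n := n) (u := u) (by omega) hun (c := 4 * ε) (by linarith)
    rw [show 2 * (2 * ε) = 4 * ε by ring]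
    exact this
  calc (n : ℝ) ^ (-(4 * ε)) * H u ≤ (u : ℝ) ^ (-(2 * (2 * ε))) * H u := by gcongr
    _ = (H u : ℝ) * (u : ℝ) ^ (-(2 * (2 * ε))) := by ring
    _ ≤ (hit u (H u) S).card := h9
    _ ≤ _ := by
        norm_cast
        apply card_le_card
        intro T hT
        unfold hit at hT
        rw [mem_filter] at hT ⊢
        obtain ⟨hT1, s, hs, hT2⟩ := hT
        refine ⟨hT1, ?_⟩
        rw [hS, mem_image] at hs
        obtain ⟨v, hv, rfl⟩ := hs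
        obtain ⟨g1, x, y, z, w, g2, g3, g4⟩ := hPle v hv
        refine ⟨x, y, z, w, g2, by omega, g4, ?_⟩
        rw [g2, g3, Function.update_self, Function.update_of_ne (by omega)]
        rw [show T + b v + 1 = T + (b v + 1) by ring]
        exact hT2

end Pool.Agent.D0H86.PW
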