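import Pool.Agent.D0H86.PW.Stm

set_option autoImplicit false

namespace Pool.Agent.D0H86.PW

open Finset Filter MeasureTheory ProbabilityTheory

/-- **Module EX** (25 min). The model exists.

Proof: `μ = Measure.infinitePi (fun k => law k)` with `law k` the uniform law on `[2 ^ k, 2 ^ k + H k)` (for
instance the `toMeasure` of `PMF.uniformOfFinset`, or `(H k)⁻¹ • ∑ dirac`); the coordinates are independent
(`iIndepFun_infinitePi` or the like) and have these laws (`Measure.infinitePi_map_eval` or the like). -/
def S_EX : Prop := ∀ H : ℕ → ℕ, (∀ k, 1 ≤ H k) → ∃ μ : Measure (ℕ → ℕ),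
  IsProbabilityMeasure μ ∧ Model μ (fun k ω => ω k) H

end Pool.Agent.D0H86.PW
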